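import Mathlib

/-!
# Regular rings with countable separation

`Regular R`: von Neumann regular.  `Separated R`: if `b_j a_i = 0` for all natural numbers `i, j`
then some `h` satisfies `h a_i = a_i` and `b_j h = 0` for all `i, j`.

The lemma `tool` is the form in which separation in `M_3(R)` is used.
-/

set_option autoImplicit false

namespace Pool.Agent.D0H74.WG

open Matrix

universe u

/-- von Neumann regular rings -/
def Regular (R : Type u) [Ring R] : Prop := ∀ a : R, ∃ b : R, a * b * a = a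

/-- countable separation -/
def Separated (R : Type u) [Ring R] : Prop :=
  ∀ a b : ℕ → R, (∀ i j, b j * a i = 0) →
    ∃ h : R, (∀ i, h * a i = a i) ∧ ∀ j, b j * h = 0

theorem Separated.countable {R : Type u} [Ring R] (hS : Separated R) {ι κ : Type*} [Countable ι]
    [Countable κ] (a : ι → R) (b : κ → R) (h : ∀ i j, b j * a i = 0) :
    ∃ h : R, (∀ i, h * a i = a i) ∧ ∀ j, b j * h = 0 := by
  obtain ⟨s, hs⟩ := exists_surjective_nat (Option ι)
  obtain ⟨t, ht⟩ := exists_surjective_nat (Option κ)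
  let a' : Option ι → R := fun o => o.elim 0 a
  let b' : Option κ → R := fun o => o.elim 0 b
  have hab : ∀ i j, b' j * a' i = 0 := by
    intro i j
    cases i <;> cases j <;> simp [a', b', h]
  obtain ⟨x, hx, hy⟩ := hS (fun i => a' (s i)) (fun j => b' (t j)) (fun i j => hab _ _)
  refine ⟨x, fun i => ?_, fun j => ?_⟩
  · obtain ⟨k, hk⟩ := hs (some i)
    simpa [hk, a'] using hx k
  · obtain ⟨k, hk⟩ := ht (some j)
    simpa [hk, b'] using hy k

theorem dot_sub_mul {R : Type u} [Ring R] {m : ℕ} (σ ρ p : Fin m → R) (μ : R) :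
    (fun t => σ t - μ * ρ t) ⬝ᵥ p = σ ⬝ᵥ p - μ * (ρ ⬝ᵥ p) := by
  simp only [dotProduct, sub_mul, Finset.sum_sub_distrib, Finset.mul_sum, mul_assoc]

theorem mul_dot {R : Type u} [Ring R] {m : ℕ} (a : R) (ρ p : Fin m → R) :
    a * (ρ ⬝ᵥ p) = (fun t => a * ρ t) ⬝ᵥ p := by
  simp only [dotProduct, Finset.mul_sum, mul_assoc]

theorem dot_mul {R : Type u} [Ring R] {m : ℕ} (a : R) (ρ p : Fin m → R) :
    (ρ ⬝ᵥ p) * a = ρ ⬝ᵥ (fun t => p t * a) := by
  simp only [dotProduct, Finset.sum_mul, mul_assoc]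

theorem dot_add {R : Type u} [Ring R] {m : ℕ} (ρ p q : Fin m → R) :
    ρ ⬝ᵥ (fun t => p t + q t) = ρ ⬝ᵥ p + ρ ⬝ᵥ q := by
  simp only [dotProduct, mul_add, Finset.sum_add_distrib]

theorem dot_sub {R : Type u} [Ring R] {m : ℕ} (ρ p q : Fin m → R) :
    ρ ⬝ᵥ (fun t => p t - q t) = ρ ⬝ᵥ p - ρ ⬝ᵥ q := by
  simp only [dotProduct, mul_sub, Finset.sum_sub_distrib]

/-- the right ideal generated by finitely many elements is generated by an idempotent -/
theorem Regular.row {R : Type u} [Ring R] (hR : Regular R) {m : ℕ} (ρ : Fin m → R) :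
    ∃ ρ' : Fin m → R, ∀ t, (ρ ⬝ᵥ ρ') * ρ t = ρ t := by
  induction m with
  | zero => exact ⟨0, fun t => t.elim0⟩
  | succ m ih =>
    obtain ⟨σ, hσ⟩ := ih (fun t => ρ t.castSucc)
    set e : R := (fun t : Fin m => ρ t.castSucc) ⬝ᵥ σ with he
    set a := ρ (Fin.last m) with ha
    obtain ⟨b, hb⟩ := hR ((1 - e) * a)
    -- the new idempotent is `e + (1 - e) a b (1 - e)`
    refine ⟨Fin.snoc (α := fun _ => R) (fun t => σ t * (1 - a * b * (1 - e))) (b * (1 - e)), ?_⟩
    have hsum : (ρ ⬝ᵥ Fin.snoc (α := fun _ => R) (fun t => σ t * (1 - a * b * (1 - e)))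
        (b * (1 - e))) = e + (1 - e) * a * b * (1 - e) := by
      simp only [dotProduct]
      rw [Fin.sum_univ_castSucc]
      simp only [Fin.snoc_castSucc, Fin.snoc_last]
      have h1 : ∑ x : Fin m, ρ x.castSucc * (σ x * (1 - a * b * (1 - e))) =
          e * (1 - a * b * (1 - e)) := by
        conv_rhs => rw [he]
        rw [dot_mul]
        rfl
      rw [h1, ← ha]
      noncomm_ring
    intro t
    rw [hsum]
    refine Fin.lastCases ?_ (fun t => ?_) t
    · rw [← ha]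
      have : (e + (1 - e) * a * b * (1 - e)) * a = e * a + (1 - e) * a * b * ((1 - e) * a) := by
        noncomm_ring
      rw [this, hb]
      noncomm_ring
    · have h0 : (1 - e) * ρ t.castSucc = 0 := by
        rw [sub_mul, one_mul, hσ t, sub_self]
      rw [add_mul, hσ t, mul_assoc ((1 - e) * a * b), h0, mul_zero, add_zero]

/-- The working form of separation in `M_3(R)`. -/
theorem tool {R : Type u} [Ring R] (hR : Regular R) (hS : Separated (Matrix (Fin 3) (Fin 3) R))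
    {ι κ : Type} [Countable ι] [Countable κ] (u v w : ι → R) (α β γ : κ → R)
    (h : ∀ i j, α j * u i + β j * v i + γ j * w i = 0) :
    ∃ z μ ν e l : R, z * z = z ∧ (∀ i, z * u i = u i) ∧ (∀ j, α j * z + β j * μ + γ j * ν = 0) ∧
      e * e = e ∧ l * e = l ∧ (∀ j, β j * e + γ j * l = 0) ∧
      ∀ i, (1 - e) * (v i - μ * u i) = 0 := by
  obtain ⟨H, h1, h2⟩ := hS.countable (ι := ι) (κ := κ) (fun i => Matrix.of fun r _ => ![u i, v i, w i] r)
    (fun j => Matrix.of fun _ c => ![α j, β j, γ j] c) (by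
      intro i j
      ext r c
      simp [Matrix.mul_apply, Fin.sum_univ_three, h i j])
  have e1 : ∀ i r, H r ⬝ᵥ ![u i, v i, w i] = ![u i, v i, w i] r := by
    intro i r
    have := congrFun (congrFun (h1 i) r) 0
    rw [Matrix.mul_apply] at this
    exact this
  have e2 : ∀ j t, α j * H 0 t + β j * H 1 t + γ j * H 2 t = 0 := by
    intro j t
    have := congrFun (congrFun (h2 j) 0) t
    rw [Matrix.mul_apply, Fin.sum_univ_three] at this
    simpa using this
  obtain ⟨ρ', hρ'⟩ := hR.row (H 0)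
  set z := H 0 ⬝ᵥ ρ' with hz
  set μ := H 1 ⬝ᵥ ρ' with hμ
  set ν := H 2 ⬝ᵥ ρ' with hν
  have hzz : z * z = z := by
    conv_lhs => rw [hz]
    rw [← hz, hz, mul_dot, ← hz]
    simp only [hρ']
    exact hz.symm
  have cmb : ∀ j (p : Fin 3 → R), α j * (H 0 ⬝ᵥ p) + β j * (H 1 ⬝ᵥ p) + γ j * (H 2 ⬝ᵥ p) = 0 := by
    intro j p
    rw [mul_dot, mul_dot, mul_dot]
    simp only [dotProduct]
    rw [← Finset.sum_add_distrib, ← Finset.sum_add_distrib]
    refine Finset.sum_eq_zero fun t _ => ?_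
    rw [← add_mul, ← add_mul, e2, zero_mul]
  obtain ⟨τ', hτ'⟩ := hR.row (fun t => H 1 t - μ * H 0 t)
  set e := (fun t => H 1 t - μ * H 0 t) ⬝ᵥ τ' with he
  have hee : e * e = e := by
    conv_lhs => rw [he]
    rw [← he, he, mul_dot, ← he]
    simp only [hτ']
    exact he.symm
  -- the column killed by the first row
  set q : Fin 3 → R := fun t => (τ' t - ρ' t * (H 0 ⬝ᵥ τ')) * e with hq
  have hq0 : H 0 ⬝ᵥ q = 0 := by
    rw [hq, ← dot_mul, dot_sub, ← dot_mul, ← hz]
    have : z * (H 0 ⬝ᵥ τ') = H 0 ⬝ᵥ τ' := by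
      rw [mul_dot]
      simp only [hρ']
    rw [this, sub_self, zero_mul]
  have hq1 : H 1 ⬝ᵥ q = e := by
    rw [hq, ← dot_mul, dot_sub, ← dot_mul, ← hμ]
    rw [← dot_sub_mul, ← he, hee]
  have hqe : (H 2 ⬝ᵥ q) * e = H 2 ⬝ᵥ q := by
    rw [dot_mul]
    congr 1
    funext t
    rw [hq]
    simp only [mul_assoc, hee]
  refine ⟨z, μ, ν, e, H 2 ⬝ᵥ q, hzz, ?_, ?_, hee, hqe, ?_, ?_⟩
  · intro i
    have h3 : H 0 ⬝ᵥ ![u i, v i, w i] = u i := e1 i 0
    have h6 : z * (H 0 ⬝ᵥ ![u i, v i, w i]) = H 0 ⬝ᵥ ![u i, v i, w i] := by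
      rw [mul_dot]
      simp only [hρ']
    rw [h3] at h6
    exact h6
  · intro j
    exact cmb j ρ'
  · intro j
    have := cmb j q
    rw [hq0, hq1, mul_zero, zero_add] at this
    exact this
  · intro i
    have h3 : H 0 ⬝ᵥ ![u i, v i, w i] = u i := e1 i 0
    have h4 : H 1 ⬝ᵥ ![u i, v i, w i] = v i := e1 i 1
    have h5 : ∀ t, (1 - e) * (H 1 t - μ * H 0 t) = 0 := by
      intro t
      rw [sub_mul, one_mul, hτ' t, sub_self]
    have h6 : (1 - e) * (H 1 ⬝ᵥ ![u i, v i, w i] - μ * (H 0 ⬝ᵥ ![u i, v i, w i])) = 0 := by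
      rw [← dot_sub_mul, mul_dot]
      simp only [h5]
      simp [dotProduct]
    rw [h3, h4] at h6
    exact h6

end Pool.Agent.D0H74.WG
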