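import Pool.Agent.D0H74.WG.Lift

/-!
# One lifting problem inside an exactly extendable idempotent
-/

set_option autoImplicit false

namespace Pool.Agent.D0H74.WG

open PowerSeries

universe u

variable {R : Type u} [Ring R]

theorem claimB (hR : Regular R) (hS : Separated (Matrix (Fin 3) (Fin 3) R)) {c d : ℕ → R}
    {p : ℕ → R⟦X⟧} (hd : Orth d) (hp : PData c p) {y : R} (hyy : y * y = y) {ψ : R⟦X⟧}
    (hψ : constantCoeff ψ = 1 - y) (hψp : ∀ i, ψ * p i = 0) {r v : ℕ → R}
    (hr : ∀ j, d j * r j = r j) (hrv : ∀ i j, d j * v i = r j * c i) :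
    ∃ (y' l : R) (ψ' : R⟦X⟧), y' * y' = y' ∧ y * y' = y' ∧ (∀ j, d j * l = r j * y') ∧
      constantCoeff ψ' = 1 - y' ∧ ∀ i, ψ' * p i = 0 := by
  have hc := hp.orth
  have hyc : ∀ i, y * c i = c i := by
    intro i
    have := congrArg constantCoeff (hψp i)
    rw [map_mul, hψ, hp.const, map_zero, sub_mul, one_mul] at this
    exact (sub_eq_zero.1 this).symm
  -- the first idempotent
  obtain ⟨z0, l0, _, _, _, hzz0, hzc0, hcmb0, _⟩ := tool hR hS (ι := ℕ) (κ := Option ℕ)
    (fun i => c i) (fun i => v i) (fun _ => 0) (fun o => o.elim (1 - y) fun j => - r j)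
    (fun o => o.elim 0 fun j => d j) (fun _ => 0) (by
      intro i o
      cases o with
      | none => simp [sub_mul, hyc i]
      | some j => simp [hrv i j])
  have hyz0 : y * z0 = z0 := by
    have := hcmb0 none
    simp only [Option.elim, zero_mul, add_zero, sub_mul, one_mul] at this
    exact (sub_eq_zero.1 this).symm
  have hl0 : ∀ j, d j * l0 = r j * z0 := by
    intro j
    have := hcmb0 (some j)
    simp only [Option.elim, zero_mul, add_zero, neg_mul] at this
    rw [neg_add_eq_zero] at this
    exact this.symm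
  obtain ⟨st, h0, hP, hQ⟩ := dep_seq (α := R⟦X⟧ × R × R)
    (fun k t => t.2.1 * t.2.1 = t.2.1 ∧ y * t.2.1 = t.2.1 ∧ t.2.1 * y = t.2.1 ∧
      (∀ i, t.2.1 * c i = c i) ∧ t.2.2 * t.2.1 = t.2.2 ∧ (∀ j, d j * t.2.2 = r j * t.2.1) ∧
      constantCoeff t.1 = 1 ∧ C y * t.1 * C y = t.1 * C y ∧
      ∀ i, ∀ m ≤ k, (1 - t.2.1) * coeff m (t.1 * (C y * p i)) = 0)
    (fun k t t' => (∀ m ≤ k, coeff m t'.1 = coeff m t.1) ∧ t'.2.1 * t.2.1 = t.2.1 ∧
      t'.2.2 * t.2.1 = t.2.2)
    (1, z0 * y, l0 * z0 * y)
    (by
      dsimp only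
      refine ⟨?_, ?_, ?_, ?_, ?_, ?_, by simp, ?_, ?_⟩
      · rw [mul_assoc, ← mul_assoc y, hyz0, ← mul_assoc, hzz0]
      · rw [← mul_assoc, hyz0]
      · rw [mul_assoc, hyy]
      · intro i; rw [mul_assoc, hyc, hzc0]
      · rw [mul_assoc _ y, ← mul_assoc y, hyz0, ← mul_assoc, mul_assoc l0, hzz0]
      · intro j; rw [← mul_assoc, ← mul_assoc, hl0, mul_assoc (r j), hzz0, mul_assoc]
      · simp only [mul_one, one_mul]
        rw [← map_mul, hyy]
      · intro i m hm
        obtain rfl : m = 0 := by omega
        simp [hp.const, hyc i, sub_mul, mul_assoc, hzc0 i])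
    (by
      rintro k ⟨T, x, l⟩ ⟨hxx, hyx, hxy, hxc, hlx, hl, hT, hyT, hlow⟩
      dsimp only at *
      set g := y - x with hg
      have hgg : g * g = g := by
        rw [hg, sub_mul, mul_sub, mul_sub, hyy, hyx, hxy, hxx]; abel
      have hgx : g * x = 0 := by rw [hg, sub_mul, hyx, hxx, sub_self]
      have hxg : x * g = 0 := by rw [hg, mul_sub, hxy, hxx, sub_self]
      have hgy : g * y = g := by rw [hg, sub_mul, hyy, hxy]
      have hyg : y * g = g := by rw [hg, mul_sub, hyy, hyx]
      set s : ℕ → R := fun i => - coeff (k + 1) (T * (C y * p i)) with hs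
      have hsc : ∀ i, s i * c i = s i := by
        intro i
        show - coeff (k + 1) (T * (C y * p i)) * c i = - coeff (k + 1) (T * (C y * p i))
        rw [neg_mul, ← mul_assoc, hp.coeff]
      have hys : ∀ i, y * s i = s i := by
        intro i
        show y * - coeff (k + 1) (T * (C y * p i)) = - coeff (k + 1) (T * (C y * p i))
        rw [mul_neg, ← coeff_C_mul, ← mul_assoc (C y), ← mul_assoc (C y * T), hyT, mul_assoc]
      obtain ⟨e, μ, l', hee, hge, hgμ, hle, hl', hext⟩ := exchange hR hS hc hd
        (s := fun i => g * s i) (r := r) (fun i => by rw [mul_assoc, hsc]) hr hgg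
        (fun i => by rw [← mul_assoc, hgg])
      have hlg : l * g = 0 := by rw [← hlx, mul_assoc, hxg, mul_zero]
      have h1 : (1 - (x + e * g)) * (1 - x) = 1 - (x + e * g) := by
        have : (1 - (x + e * g)) * (1 - x) = 1 - (x + e * g) - (x - x * x - e * (g * x)) := by
          noncomm_ring
        rw [this, hxx, hgx]; simp
      have h2 : (1 - (x + e * g)) * y = (1 - e) * g := by
        have : (1 - (x + e * g)) * y = y - x * y - e * (g * y) := by noncomm_ring
        rw [this, hxy, hgy, hg]; noncomm_ring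
      refine ⟨(T + monomial (k + 1) μ, x + e * g, l + l' * g), ⟨?_, ?_, ?_, ?_, ?_, ?_, ?_, ?_, ?_⟩,
        ?_, ?_, ?_⟩ <;> dsimp only
      · have : (x + e * g) * (x + e * g) = x * x + x * e * g + e * (g * x) + e * (g * e) * g := by
          noncomm_ring
        rw [this, hxx, hgx, hge, hee, ← hge, ← mul_assoc x, hxg]; simp [hge]
      · rw [mul_add, hyx, ← mul_assoc]
        congr 2
        rw [← hge, ← mul_assoc, hyg]
      · rw [add_mul, hxy, mul_assoc, hgy]
      · intro i
        have : g * c i = 0 := by rw [hg, sub_mul, hyc, hxc, sub_self]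
        rw [add_mul, hxc, mul_assoc, this, mul_zero, add_zero]
      · have : (l + l' * g) * (x + e * g) = l * x + l * e * g + l' * (g * x) + l' * (g * e) * g := by
          noncomm_ring
        rw [this, hlx, hgx, hge, hle, ← hge, ← mul_assoc l, hlg]; simp
      · intro j
        rw [mul_add, hl, ← mul_assoc, hl']
        noncomm_ring
      · rw [map_add, hT, ← coeff_zero_eq_constantCoeff_apply, coeff_monomial_low (Nat.zero_le k),
          add_zero]
      · rw [mul_add, add_mul, hyT, add_mul]
        congr 1
        rw [mul_assoc, monomial_mul_C']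
        ext m
        rw [coeff_C_mul, coeff_monomial]
        split_ifs
        · rw [← mul_assoc]
          congr 1
          rw [← hgμ, ← mul_assoc, hyg]
        · simp
      · intro i m hm
        rw [add_mul, map_add]
        rcases Nat.lt_or_ge k m with h | h
        · obtain rfl : m = k + 1 := by omega
          rw [coeff_monomial_mul_succ]
          have h3 : constantCoeff (C y * p i) = c i := by
            rw [map_mul, constantCoeff_C, hp.const, hyc]
          have h4 : coeff (k + 1) (T * (C y * p i)) = - s i := by simp [hs]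
          rw [h3, h4, ← hys i, ← hgμ]
          have h5 : (1 - (x + e * g)) * (-(y * s i) + g * μ * c i) =
            - (((1 - (x + e * g)) * y) * s i) + ((1 - (x + e * g)) * g) * μ * c i := by
            noncomm_ring
          have h6 : (1 - (x + e * g)) * g = (1 - e) * g := by
            have : (1 - (x + e * g)) * g = g - x * g - e * (g * g) := by noncomm_ring
            rw [this, hxg, hgg]; noncomm_ring
          rw [h5, h2, h6]
          have h7 := hext i
          have h8 : -((1 - e) * g * s i) + (1 - e) * g * μ * c i =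
            - ((1 - e) * (g * s i - (g * μ) * c i)) := by noncomm_ring
          rw [h8, hgμ, h7, neg_zero]
        · rw [coeff_monomial_mul_low _ _ h, add_zero, ← h1, mul_assoc, hlow i m h, mul_zero]
      · intro m hm
        rw [map_add, coeff_monomial_low hm, add_zero]
      · rw [add_mul, hxx, mul_assoc, hgx, mul_zero, add_zero]
      · rw [add_mul, hlx, mul_assoc, hgx, mul_zero, add_zero])
  obtain ⟨T, hT⟩ := stable_limit (T := fun k => (st k).1) (fun k => (hQ k).1)
  obtain ⟨z, l, _, _, _, hzz, hzx, hcmb, _⟩ := tool hR hS (ι := ℕ) (κ := Option ℕ)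
    (fun k => (st k).2.1) (fun k => (st k).2.2) (fun _ => 0)
    (fun o => o.elim (1 - y) fun j => - r j)
    (fun o => o.elim 0 fun j => d j) (fun _ => 0) (by
      intro k o
      cases o with
      | none => simp [sub_mul, (hP k).2.1]
      | some j => simp [(hP k).2.2.2.2.2.1 j])
  have hyz : y * z = z := by
    have := hcmb none
    simp only [Option.elim, zero_mul, add_zero, sub_mul, one_mul] at this
    exact (sub_eq_zero.1 this).symm
  have hl : ∀ j, d j * l = r j * z := by
    intro j
    have := hcmb (some j)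
    simp only [Option.elim, zero_mul, add_zero, neg_mul] at this
    rw [neg_add_eq_zero] at this
    exact this.symm
  have hT1 : constantCoeff T = 1 := by
    rw [← coeff_zero_eq_constantCoeff_apply, hT 0 0 le_rfl, coeff_zero_eq_constantCoeff_apply]
    exact (hP 0).2.2.2.2.2.2.1
  refine ⟨z, l, C (1 - z) * T * (C y + C (1 - y) * ψ), hzz, hyz, hl, ?_, ?_⟩
  · have : (1 - y) * (1 - y) = 1 - y := by
      rw [mul_sub, mul_one, sub_mul, one_mul, hyy, sub_self, sub_zero]
    simp only [map_mul, map_add, constantCoeff_C, hT1, hψ, this]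
    simp
  · intro i
    have h1 : (C y + C (1 - y) * ψ) * p i = C y * p i := by
      rw [add_mul, mul_assoc, hψp, mul_zero, add_zero]
    rw [mul_assoc, h1, mul_assoc]
    ext m
    rw [coeff_C_mul, coeff_mul_congr_left (C y * p i) (hT m) m le_rfl, map_zero]
    have h2 : (1 - z) * (1 - (st m).2.1) = 1 - z := by
      rw [mul_sub, mul_one, sub_mul, one_mul, hzx m, sub_self, sub_zero]
    rw [← h2, mul_assoc, (hP m).2.2.2.2.2.2.2.2 i m le_rfl, mul_zero]

end Pool.Agent.D0H74.WG
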