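import Pool.Agent.D0H74.WG.Matr

/-!
# Flat modules over noncommutative rings

Left modules over a ring `T`; the right modules over `R` are the left modules over `Rᵐᵒᵖ`.
-/

set_option autoImplicit false

namespace Pool.Agent.D0H74.WG

universe u

variable {T : Type u} [Ring T]

/-- flat left modules: every linear relation is trivial -/
def FlatL (T : Type u) [Ring T] (M : Type u) [AddCommGroup M] [Module T M] : Prop :=
  ∀ (n : ℕ) (r : Fin n → T) (x : Fin n → M), ∑ i, r i • x i = 0 →
    ∃ (k : ℕ) (a : Matrix (Fin n) (Fin k) T) (y : Fin k → M),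
      (∀ i, x i = ∑ j, a i j • y j) ∧ ∀ j, ∑ i, r i * a i j = 0

section basic

variable {M : Type u} [AddCommGroup M] [Module T M] {N : Type u} [AddCommGroup N] [Module T N]

/-- several relations at once -/
theorem FlatL.multi (h : FlatL T M) : ∀ (m n : ℕ) (A : Matrix (Fin m) (Fin n) T) (x : Fin n → M),
    (∀ i, ∑ j, A i j • x j = 0) → ∃ (k : ℕ) (B : Matrix (Fin n) (Fin k) T) (y : Fin k → M),
      (∀ j, x j = ∑ l, B j l • y l) ∧ A * B = 0 := by
  intro m
  induction m with
  | zero =>
    intro n A x _
    refine ⟨n, 1, x, fun j => ?_, ?_⟩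
    · simp [Matrix.one_apply]
    · ext i; exact i.elim0
  | succ m ih =>
    intro n A x hA
    obtain ⟨k, B, y, hB, hB0⟩ := h n (A 0) x (hA 0)
    have h2 : ∀ i : Fin m, ∑ j, ((Matrix.of fun i => A (Fin.succ i)) * B) i j • y j = 0 := by
      intro i
      have := hA i.succ
      simp only [hB, Finset.smul_sum, smul_smul] at this
      rw [Finset.sum_comm] at this
      rw [← this]
      refine Finset.sum_congr rfl fun l _ => ?_
      rw [Matrix.mul_apply, Finset.sum_smul]
      rfl
    obtain ⟨k', B', y', hB', hAB⟩ := ih k _ y h2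
    refine ⟨k', B * B', y', fun j => ?_, ?_⟩
    · rw [hB j]
      simp only [hB', Finset.smul_sum, smul_smul]
      rw [Finset.sum_comm]
      refine Finset.sum_congr rfl fun l _ => ?_
      rw [Matrix.mul_apply, Finset.sum_smul]
    · rw [← Matrix.mul_assoc]
      ext i j
      refine Fin.cases ?_ (fun i => ?_) i
      · rw [Matrix.mul_apply]
        refine Finset.sum_eq_zero fun l _ => ?_
        rw [Matrix.mul_apply, hB0 l, zero_mul]
      · have := congrFun (congrFun hAB i) j
        rw [Matrix.mul_apply] at this ⊢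
        exact this

/-- the kernel of a surjection between flat modules is flat -/
theorem FlatL.ker (hM : FlatL T M) (hN : FlatL T N) (π : M →ₗ[T] N) (hπ : Function.Surjective π) :
    FlatL T (LinearMap.ker π) := by
  intro n r x hx
  have hx' : ∑ i, r i • (x i : M) = 0 := by
    have := congrArg Subtype.val hx
    simpa using this
  obtain ⟨k, a, y, hy, hra⟩ := hM n r (fun i => (x i : M)) hx'
  have h0 : ∀ i, ∑ j, a i j • π (y j) = 0 := by
    intro i
    have := (x i).2
    rw [LinearMap.mem_ker, hy i, map_sum] at this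
    simpa using this
  obtain ⟨l, B, z, hz, haB⟩ := hN.multi n k a (fun j => π (y j)) h0
  choose z' hz' using fun t => hπ (z t)
  refine ⟨k, a, fun j => ⟨y j - ∑ t, B j t • z' t, ?_⟩, fun i => ?_, hra⟩
  · rw [LinearMap.mem_ker, map_sub, map_sum]
    simp only [map_smul, hz']
    rw [hz j, sub_self]
  · apply Subtype.ext
    rw [hy i]
    simp only [AddSubmonoidClass.coe_finsetSum, SetLike.val_smul, smul_sub]
    rw [Finset.sum_sub_distrib]
    have : ∑ j, a i j • ∑ t, B j t • z' t = 0 := by
      simp only [Finset.smul_sum, smul_smul]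
      rw [Finset.sum_comm]
      refine Finset.sum_eq_zero fun t _ => ?_
      rw [← Finset.sum_smul]
      have := congrFun (congrFun haB i) t
      rw [Matrix.mul_apply] at this
      rw [this]
      simp
    rw [this, sub_zero]

theorem FlatL.equiv (hM : FlatL T M) (e : M ≃ₗ[T] N) : FlatL T N := by
  intro n r x hx
  obtain ⟨k, a, y, hy, hra⟩ := hM n r (fun i => e.symm (x i)) (by
    have := congrArg e.symm hx
    simpa using this)
  refine ⟨k, a, fun j => e (y j), fun i => ?_, hra⟩
  have := congrArg e (hy i)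
  simpa using this

theorem FlatL.prod (hM : FlatL T M) (hN : FlatL T N) : FlatL T (M × N) := by
  intro n r x hx
  obtain ⟨k, a, y, hy, hra⟩ := hM n r (fun i => (x i).1) (by
    have := congrArg Prod.fst hx
    simpa [Prod.fst_sum] using this)
  obtain ⟨k', a', y', hy', hra'⟩ := hN n r (fun i => (x i).2) (by
    have := congrArg Prod.snd hx
    simpa [Prod.snd_sum] using this)
  refine ⟨k + k', Matrix.of fun i => Fin.append (a i) (a' i),
    Fin.append (fun j => (y j, 0)) (fun j => (0, y' j)), fun i => ?_, fun j => ?_⟩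
  · rw [Fin.sum_univ_add]
    simp only [Matrix.of_apply, Fin.append_left, Fin.append_right, Prod.smul_mk, smul_zero]
    ext
    · simp [hy i, Prod.fst_sum]
    · simp [hy' i, Prod.snd_sum]
  · refine Fin.addCases (fun j => ?_) (fun j => ?_) j
    · simp only [Matrix.of_apply, Fin.append_left]
      exact hra j
    · simp only [Matrix.of_apply, Fin.append_right]
      exact hra' j

theorem FlatL.free (n : ℕ) : FlatL T (Fin n → T) := by
  intro m r x hx
  refine ⟨n, Matrix.of x, fun j => Pi.single j 1, fun i => ?_, fun j => ?_⟩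
  · ext l
    simp [Finset.sum_apply, Pi.single_apply]
  · have := congrFun hx j
    simpa using this

theorem FlatL.of_subsingleton [Subsingleton M] : FlatL T M := by
  intro n r x _
  exact ⟨0, 0, fun j => j.elim0, fun i => Subsingleton.elim _ _, fun j => j.elim0⟩

end basic

/-- flat resolutions of length one -/
def FD1 (T : Type u) [Ring T] (M : Type u) [AddCommGroup M] [Module T M] : Prop :=
  ∃ (F : Type u) (_ : AddCommGroup F) (_ : Module T F) (π : F →ₗ[T] M),
    FlatL T F ∧ Function.Surjective π ∧ FlatL T (LinearMap.ker π)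

theorem flat_submodule (h : ∀ (M : Type u) [AddCommGroup M] [Module T M], FD1 T M) {n : ℕ}
    (K : Submodule T (Fin n → T)) : FlatL T K := by
  obtain ⟨F, _, _, π, hF, hπ, hker⟩ := h ((Fin n → T) ⧸ K)
  obtain ⟨l, hl⟩ := Module.projective_lifting_property π K.mkQ hπ
  have hl' : ∀ v, π (l v) = K.mkQ v := fun v => by rw [← hl]; rfl
  let Φ : (LinearMap.ker π × (Fin n → T)) →ₗ[T] F :=
    (LinearMap.ker π).subtype.comp (LinearMap.fst T _ _) + l.comp (LinearMap.snd T _ _)
  have hΦ : ∀ p, Φ p = (p.1 : F) + l p.2 := fun p => rfl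
  have hsurj : Function.Surjective Φ := by
    intro w
    obtain ⟨v, hv⟩ := K.mkQ_surjective (π w)
    refine ⟨(⟨w - l v, ?_⟩, v), ?_⟩
    · rw [LinearMap.mem_ker, map_sub, hl', hv, sub_self]
    · rw [hΦ]; simp
  have h1 : FlatL T (LinearMap.ker Φ) := (hker.prod (FlatL.free n)).ker hF Φ hsurj
  have hk : ∀ p : LinearMap.ker Φ, p.1.2 ∈ K := by
    intro p
    have := p.2
    rw [LinearMap.mem_ker, hΦ] at this
    have h2 := congrArg π this
    rw [map_add, LinearMap.mem_ker.1 p.1.1.2, zero_add, hl', map_zero] at h2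
    exact (Submodule.Quotient.mk_eq_zero K).1 h2
  have hk' : ∀ v : K, (⟨⟨- l v, by
      rw [LinearMap.mem_ker, map_neg, hl', neg_eq_zero]
      exact (Submodule.Quotient.mk_eq_zero K).2 v.2⟩, v⟩ : LinearMap.ker π × (Fin n → T)) ∈
      LinearMap.ker Φ := by
    intro v
    rw [LinearMap.mem_ker, hΦ]
    simp
  let e : LinearMap.ker Φ ≃ₗ[T] K :=
    { toFun := fun p => ⟨p.1.2, hk p⟩
      invFun := fun v => ⟨_, hk' v⟩
      map_add' := fun p q => rfl
      map_smul' := fun c p => rfl
      left_inv := by
        intro p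
        apply Subtype.ext
        apply Prod.ext
        · apply Subtype.ext
          have := p.2
          rw [LinearMap.mem_ker, hΦ] at this
          exact (eq_neg_of_add_eq_zero_left this).symm
        · rfl
      right_inv := fun v => rfl }
  exact h1.equiv e

/-- one relation -/
theorem row_of_flat (h : ∀ (n : ℕ) (K : Submodule T (Fin n → T)), FlatL T K) {n : ℕ}
    (f : Matrix (Fin n) (Fin n) T) (r : Fin n → T) (hr : ∀ j, ∑ i, r i * f i j = 0) :
    ∃ H : Matrix (Fin n) (Fin n) T, H * f = 0 ∧ ∀ j, ∑ i, r i * H i j = r j := by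
  let K : Submodule T (Fin n → T) := Submodule.span T (Set.range f)
  have hf : ∀ i, f i ∈ K := fun i => Submodule.subset_span ⟨i, rfl⟩
  obtain ⟨k, a, y, hy, hra⟩ := h n K n r (fun i => ⟨f i, hf i⟩) (by
    apply Subtype.ext
    ext j
    simpa using hr j)
  have hyb : ∀ j, ∃ b : Fin n → T, ∑ i, b i • f i = (y j : Fin n → T) := by
    intro j
    exact (Submodule.mem_span_range_iff_exists_fun T).1 (y j).2
  choose b hb using hyb
  have h1 : f = a * (Matrix.of b) * f := by
    ext i l
    have h2 := congrArg (fun v : K => (v : Fin n → T) l) (hy i)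
    simp only [AddSubmonoidClass.coe_finsetSum, SetLike.val_smul, Finset.sum_apply,
      Pi.smul_apply, smul_eq_mul] at h2
    rw [h2, Matrix.mul_assoc, Matrix.mul_apply]
    refine Finset.sum_congr rfl fun j _ => ?_
    rw [← hb j, Matrix.mul_apply]
    simp
  refine ⟨1 - a * Matrix.of b, ?_, fun j => ?_⟩
  · rw [Matrix.sub_mul, Matrix.one_mul, ← h1, sub_self]
  · have h3 : ∑ i, r i * (a * Matrix.of b) i j = 0 := by
      simp only [Matrix.mul_apply, Finset.mul_sum]
      rw [Finset.sum_comm]
      refine Finset.sum_eq_zero fun l _ => ?_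
      simp only [← mul_assoc]
      rw [← Finset.sum_mul, hra l, zero_mul]
    simp only [Matrix.sub_apply, mul_sub, Finset.sum_sub_distrib, h3, sub_zero]
    simp [Matrix.one_apply]

theorem pfm_of_flat (h : ∀ (M : Type u) [AddCommGroup M] [Module T M], FD1 T M) : PFM T := by
  have hrow := fun {n : ℕ} (f : Matrix (Fin n) (Fin n) T) r hr =>
    row_of_flat (fun n K => flat_submodule h K) f r hr
  -- several rows
  have key : ∀ (n : ℕ) (G : Matrix (Fin n) (Fin n) T) (m : ℕ) (F : Matrix (Fin m) (Fin n) T),
      F * G = 0 → ∃ H : Matrix (Fin n) (Fin n) T, H * G = 0 ∧ F * H = F := by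
    intro n G m
    induction m with
    | zero =>
      intro F _
      exact ⟨0, by simp, by ext i; exact i.elim0⟩
    | succ m ih =>
      intro F hF
      obtain ⟨H1, h1, h2⟩ := ih (Matrix.of fun i => F (Fin.succ i)) (by
        ext i j
        have := congrFun (congrFun hF i.succ) j
        rw [Matrix.mul_apply] at this ⊢
        exact this)
      let F1 : Matrix (Fin (m + 1)) (Fin n) T := F * (1 - H1)
      have hF1 : F1 = F - F * H1 := by
        show F * (1 - H1) = _
        rw [Matrix.mul_sub, Matrix.mul_one]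
      obtain ⟨H2, h3, h4⟩ := hrow G (fun j => F1 0 j) (fun j => by
        have : F1 * G = 0 := by
          rw [hF1, Matrix.sub_mul, Matrix.mul_assoc, h1, Matrix.mul_zero, sub_zero, hF]
        have h5 := congrFun (congrFun this 0) j
        rw [Matrix.mul_apply] at h5
        exact h5)
      refine ⟨H1 + (1 - H1) * H2, ?_, ?_⟩
      · rw [Matrix.add_mul, h1, Matrix.mul_assoc, h3, Matrix.mul_zero, add_zero]
      · have e1 : F * (H1 + (1 - H1) * H2) = F * H1 + F1 * H2 := by
          rw [Matrix.mul_add, ← Matrix.mul_assoc]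
        rw [e1]
        ext i j
        refine Fin.cases ?_ (fun i => ?_) i
        · have h5 := h4 j
          rw [Matrix.add_apply, Matrix.mul_apply (M := F1), h5, hF1, Matrix.sub_apply]
          abel
        · have h6 : ∀ l, (F * H1) i.succ l = F i.succ l := by
            intro l
            have := congrFun (congrFun h2 i) l
            rw [Matrix.mul_apply] at this ⊢
            exact this
          rw [Matrix.add_apply, h6, Matrix.mul_apply (M := F1)]
          have : ∀ l, F1 i.succ l = 0 := by
            intro l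
            rw [hF1, Matrix.sub_apply, h6, sub_self]
          simp [this]
  intro n F G hFG
  obtain ⟨H, h1, h2⟩ := key n G n F hFG
  refine ⟨1 - H, ?_, ?_⟩
  · rw [Matrix.mul_sub, Matrix.mul_one, h2, sub_self]
  · rw [Matrix.sub_mul, Matrix.one_mul, h1, sub_zero]

/-- `PFM` for arbitrary finite index types -/
theorem PFM.fintype (h : PFM T) {ι : Type} [Fintype ι] (F G : Matrix ι ι T) (hFG : F * G = 0) :
    ∃ H : Matrix ι ι T, F * H = 0 ∧ H * G = G := by
  let e := reindexMul (A := T) (Fintype.equivFin ι)
  obtain ⟨H, h1, h2⟩ := h _ (e F) (e G) (by rw [← map_mul, hFG, map_zero])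
  refine ⟨e.symm H, e.injective ?_, e.injective ?_⟩
  · rw [map_mul, e.apply_symm_apply, h1, map_zero]
  · rw [map_mul, e.apply_symm_apply, h2]

theorem relation_of_pfm (h : PFM T) {M : Type u} {n : ℕ} (r : Fin n → T)
    (x : Fin n → (M →₀ T)) (hx : ∑ i, r i • x i = 0) :
    ∃ a : Matrix (Fin n) (Fin n) T, (∀ i, x i = ∑ j, a i j • x j) ∧ ∀ j, ∑ i, r i * a i j = 0 := by
  classical
  let J : Finset M := Finset.univ.biUnion fun i => (x i).support
  obtain ⟨m, ⟨e⟩⟩ : ∃ m : ℕ, Nonempty (Fin m ≃ J) := ⟨_, ⟨J.equivFin.symm⟩⟩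
  let F : Matrix (Fin n ⊕ Fin m) (Fin n ⊕ Fin m) T := Matrix.of fun _ => Sum.elim r 0
  let G : Matrix (Fin n ⊕ Fin m) (Fin n ⊕ Fin m) T :=
    Matrix.of (Sum.elim (fun i => Sum.elim (fun _ => 0) fun j => x i (e j)) fun _ => 0)
  have hFG : F * G = 0 := by
    ext a b
    rw [Matrix.mul_apply, Fintype.sum_sum_type]
    simp only [F, G, Matrix.of_apply, Sum.elim_inl, Sum.elim_inr, Pi.zero_apply, mul_zero,
      Finset.sum_const_zero, add_zero, Matrix.zero_apply]
    cases b with
    | inl b => simp
    | inr b =>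
      simp only [Sum.elim_inr]
      have := DFunLike.congr_fun hx ((e b : J) : M)
      simpa [Finsupp.finsetSum_apply] using this
  obtain ⟨H, h1, h2⟩ := h.fintype F G hFG
  refine ⟨Matrix.of fun i j => H (Sum.inl i) (Sum.inl j), fun i => ?_, fun j => ?_⟩
  · ext m'
    by_cases hm : m' ∈ J
    · obtain ⟨b, hb⟩ := e.surjective ⟨m', hm⟩
      have := congrFun (congrFun h2 (Sum.inl i)) (Sum.inr b)
      rw [Matrix.mul_apply, Fintype.sum_sum_type] at this
      simp only [G, Matrix.of_apply, Sum.elim_inl, Sum.elim_inr, mul_zero,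
        Finset.sum_const_zero, add_zero, hb] at this
      rw [← this]
      simp [Finsupp.finsetSum_apply]
    · have h0 : ∀ j, x j m' = 0 := by
        intro j
        by_contra hcon
        exact hm (Finset.mem_biUnion.2 ⟨j, Finset.mem_univ _, Finsupp.mem_support_iff.2 hcon⟩)
      simp [Finsupp.finsetSum_apply, h0]
  · have := congrFun (congrFun h1 (Sum.inl j)) (Sum.inl j)
    rw [Matrix.mul_apply, Fintype.sum_sum_type] at this
    simpa [F] using this

theorem fd1_of_pfm (h : PFM T) (M : Type u) [AddCommGroup M] [Module T M] : FD1 T M := by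
  refine ⟨M →₀ T, inferInstance, inferInstance, Finsupp.linearCombination T id, ?_,
    Finsupp.linearCombination_id_surjective T M, ?_⟩
  · intro n r x hx
    obtain ⟨a, h1, h2⟩ := relation_of_pfm h r x hx
    exact ⟨n, a, x, h1, h2⟩
  · intro n r x hx
    obtain ⟨a, h1, h2⟩ := relation_of_pfm h r (fun i => (x i : M →₀ T)) (by
      have := congrArg Subtype.val hx
      simpa using this)
    refine ⟨n, a, x, fun i => Subtype.ext ?_, h2⟩
    rw [h1 i]
    simp

/-- `PFM` is left-right symmetric -/
theorem PFM.op (h : PFM T) : PFM Tᵐᵒᵖ := by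
  intro n F G hFG
  let t : Matrix (Fin n) (Fin n) Tᵐᵒᵖ → Matrix (Fin n) (Fin n) T :=
    fun M => Matrix.of fun i j => MulOpposite.unop (M j i)
  let s : Matrix (Fin n) (Fin n) T → Matrix (Fin n) (Fin n) Tᵐᵒᵖ :=
    fun M => Matrix.of fun i j => MulOpposite.op (M j i)
  have ts : ∀ M, t (s M) = M := fun M => by ext i j; simp [t, s]
  have st : ∀ M, s (t M) = M := fun M => by ext i j; simp [t, s]
  have tm : ∀ M N, t (M * N) = t N * t M := by
    intro M N
    ext i j
    simp [t, Matrix.mul_apply, Finset.unop_sum]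
  have t0 : t 0 = 0 := by ext i j; simp [t]
  have inj : Function.Injective t := fun x y hxy => by rw [← st x, ← st y, hxy]
  obtain ⟨H, h1, h2⟩ := h n (t G) (t F) (by rw [← tm, hFG, t0])
  have t1 : t 1 = 1 := by
    ext i j
    simp only [t, Matrix.of_apply, Matrix.one_apply]
    by_cases h : i = j
    · subst h; simp
    · have h' : ¬ j = i := fun h2 => h h2.symm
      simp [h, h']
  have tsub : ∀ M N, t (M - N) = t M - t N := by intro M N; ext i j; simp [t]
  refine ⟨1 - s H, inj ?_, inj ?_⟩
  · rw [tm, tsub, t1, ts, sub_mul, one_mul, h2, sub_self, t0]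
  · rw [tm, tsub, t1, ts, mul_sub, mul_one, h1, sub_zero]

end Pool.Agent.D0H74.WG
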