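import Pool.Agent.D0H74.WG.Tower

/-!
# Exact lifts
-/

set_option autoImplicit false

namespace Pool.Agent.D0H74.WG

open PowerSeries

universe u

variable {R : Type u} [Ring R]

theorem monomial_mul_C' (n : ℕ) (a b : R) :
    (monomial n a : R⟦X⟧) * C b = monomial n (a * b) := by
  ext m
  rw [coeff_mul_C, coeff_monomial, coeff_monomial]
  split_ifs <;> simp

/-- correction of the exact solutions on the small module -/
theorem fix_step (hR : Regular R) (hS : Separated (Matrix (Fin 3) (Fin 3) R)) {c d : ℕ → R}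
    {D : ℕ → R⟦X⟧} (hc : Orth c) (hD : LData d D) {q : ℕ → R⟦X⟧} (hq : ∀ i, q i * C (c i) = q i)
    (hDq : ∀ i j, D j * q i = 0) (k : ℕ) (L : R)
    (hL : ∀ i j, d j * (L * c i - coeff (k + 1) (q i)) = 0) :
    ∃ (ν : R) (q' : ℕ → R⟦X⟧), (∀ j, d j * ν = 0) ∧ (∀ i, q' i * C (c i) = q' i) ∧
      (∀ i j, D j * q' i = 0) ∧ (∀ i, ∀ m ≤ k, coeff m (q' i) = coeff m (q i)) ∧
      ∀ i, coeff (k + 1) (q' i) = (L - ν) * c i := by
  have hqc : ∀ i, coeff (k + 1) (q i) * c i = coeff (k + 1) (q i) := by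
    intro i
    conv_rhs => rw [← hq i, coeff_mul_C]
  have hs : ∀ i, (L * c i - coeff (k + 1) (q i)) * c i = L * c i - coeff (k + 1) (q i) := by
    intro i
    rw [sub_mul, mul_assoc, hc.1, hqc]
  obtain ⟨y, _, _, _, _, hyy, hys, hdy, _⟩ := tool hR hS (ι := ℕ) (κ := ℕ)
    (fun i => L * c i - coeff (k + 1) (q i)) (fun _ => 0) (fun _ => 0) (fun j => d j)
    (fun _ => 0) (fun _ => 0) (by intro i j; simp [hL i j])
  simp only [zero_mul, add_zero] at hdy
  obtain ⟨e, μ, κ, hee, hye, hyμ, hext, hκ, hDκ⟩ := exact_error hR hS hc hD hs hyy hys hdy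
  refine ⟨μ, fun i => q i + κ * monomial (k + 1) (L * c i - coeff (k + 1) (q i) - μ * c i),
    ?_, ?_, ?_, ?_, ?_⟩
  · intro j
    rw [← hyμ, ← mul_assoc, hdy, zero_mul]
  · intro i
    show (q i + κ * monomial (k + 1) (L * c i - coeff (k + 1) (q i) - μ * c i)) * C (c i) = _
    rw [add_mul, hq, mul_assoc, monomial_mul_C']
    congr 3
    rw [sub_mul, hs, mul_assoc, hc.1]
  · intro i j
    show D j * (q i + κ * monomial (k + 1) (L * c i - coeff (k + 1) (q i) - μ * c i)) = 0
    rw [mul_add, hDq, ← mul_assoc, hDκ, zero_mul, add_zero]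
  · intro i m hm
    show coeff m (q i + κ * monomial (k + 1) (L * c i - coeff (k + 1) (q i) - μ * c i)) = _
    rw [map_add, coeff_mul_monomial_low κ _ hm, add_zero]
  · intro i
    show coeff (k + 1)
      (q i + κ * monomial (k + 1) (L * c i - coeff (k + 1) (q i) - μ * c i)) = _
    rw [map_add, coeff_mul_monomial_succ, hκ]
    have h1 := hext i
    rw [sub_mul, one_mul, sub_eq_zero] at h1
    rw [← h1]
    noncomm_ring

/-- the state after `k` steps -/
structure Stage (c : ℕ → R) (D : ℕ → R⟦X⟧) (k : ℕ) (T : R⟦X⟧) (z : R) (q : ℕ → R⟦X⟧) : Prop where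
  idem : z * z = z
  fixes : ∀ i, z * c i = c i
  const : constantCoeff T = 1
  low : ∀ j, ∀ m ≤ k, coeff m (D j * T) * z = 0
  right : ∀ i, q i * C (c i) = q i
  exact : ∀ i j, D j * q i = 0
  agree : ∀ i, ∀ m ≤ k, coeff m (q i) = coeff m T * c i

theorem Stage.next_eq {c d : ℕ → R} {D : ℕ → R⟦X⟧} (hD : LData d D) {k : ℕ}
    {T : R⟦X⟧} {z : R} {q : ℕ → R⟦X⟧} (h : Stage c D k T z q) (i j : ℕ) :
    d j * (coeff (k + 1) (q i) - coeff (k + 1) T * c i) = - coeff (k + 1) (D j * T) * c i := by
  have h1 : coeff (k + 1) (D j * (q i - T * C (c i))) =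
      constantCoeff (D j) * coeff (k + 1) (q i - T * C (c i)) := by
    apply coeff_succ_mul_of_low
    intro m hm
    rw [map_sub, coeff_mul_C, h.agree i m hm, sub_self]
  rw [mul_sub, h.exact, zero_sub, map_neg, ← mul_assoc, coeff_mul_C, map_sub, coeff_mul_C,
    hD.const] at h1
  rw [← h1, neg_mul]

/-- advance by one step, once the next idempotent and the next coefficient are given -/
theorem Stage.advance (hR : Regular R) (hS : Separated (Matrix (Fin 3) (Fin 3) R)) {c d : ℕ → R}
    {D : ℕ → R⟦X⟧} (hc : Orth c) (hD : LData d D) {k : ℕ}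
    {T : R⟦X⟧} {z : R} {q : ℕ → R⟦X⟧} (h : Stage c D k T z q) {z' l : R} (hzz : z' * z' = z')
    (hz : z * z' = z') (hzc : ∀ i, z' * c i = c i)
    (hl : ∀ j, d j * l = - coeff (k + 1) (D j * T) * z') :
    ∃ (T' : R⟦X⟧) (q' : ℕ → R⟦X⟧), Stage c D (k + 1) T' z' q' ∧
      ∀ m ≤ k, coeff m T' = coeff m T := by
  obtain ⟨ν, q', hν, hq', hDq', hlow, hsucc⟩ := fix_step hR hS hc hD h.right h.exact k
    (coeff (k + 1) T + l) (by
      intro i j
      have h1 := h.next_eq hD i j
      have h2 : d j * l * c i = - coeff (k + 1) (D j * T) * c i := by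
        rw [hl, mul_assoc, hzc]
      rw [← h2] at h1
      have h3 : d j * ((coeff (k + 1) T + l) * c i - coeff (k + 1) (q i)) =
        d j * l * c i - d j * (coeff (k + 1) (q i) - coeff (k + 1) T * c i) := by noncomm_ring
      rw [h3, h1, sub_self])
  have hTlow : ∀ m ≤ k, coeff m (T + monomial (k + 1) (l - ν)) = coeff m T := by
    intro m hm
    rw [map_add, coeff_monomial_low hm, add_zero]
  refine ⟨T + monomial (k + 1) (l - ν), q', ⟨hzz, hzc, ?_, ?_, hq', hDq', ?_⟩, hTlow⟩
  · rw [← coeff_zero_eq_constantCoeff_apply, hTlow 0 (Nat.zero_le k),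
      coeff_zero_eq_constantCoeff_apply, h.const]
  · intro j m hm
    rw [mul_add, map_add]
    rcases Nat.lt_or_ge k m with h' | h'
    · obtain rfl : m = k + 1 := by omega
      rw [coeff_mul_monomial_succ, hD.const, mul_sub, hν, sub_zero, hl, add_mul, mul_assoc, hzz,
        neg_mul, add_neg_cancel]
    · rw [coeff_mul_monomial_low (D j) _ h', add_zero, ← hz, ← mul_assoc, h.low j m h', zero_mul]
  · intro i m hm
    rcases Nat.lt_or_ge k m with h' | h'
    · obtain rfl : m = k + 1 := by omega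
      rw [hsucc, map_add, coeff_monomial, if_pos rfl]
      congr 1
      noncomm_ring
    · rw [hlow i m h', hTlow m h', h.agree i m h']

/-- **Existence of an exactly liftable idempotent that fixes the `c_i`.** -/
theorem exact_lift (hR : Regular R) (hS : Separated (Matrix (Fin 3) (Fin 3) R)) {c d : ℕ → R}
    {D p : ℕ → R⟦X⟧} (hD : LData d D) (hp : PData c p) (hDp : ∀ i j, D j * p i = 0) :
    ∃ (z : R) (θ : R⟦X⟧), z * z = z ∧ (∀ i, z * c i = c i) ∧ constantCoeff θ = z ∧
      ∀ j, D j * θ = 0 := by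
  have hc := hp.orth
  have hdc : ∀ i j, d j * c i = 0 := by
    intro i j
    have := congrArg constantCoeff (hDp i j)
    rwa [map_mul, hD.const, hp.const, map_zero] at this
  obtain ⟨z0, _, _, _, _, hzz0, hzc0, hdz0, _⟩ := tool hR hS (ι := ℕ) (κ := ℕ)
    (fun i => c i) (fun _ => 0) (fun _ => 0) (fun j => d j)
    (fun _ => 0) (fun _ => 0) (by intro i j; simp [hdc i j])
  simp only [zero_mul, add_zero] at hdz0
  obtain ⟨st, h0, hP, hQ⟩ := dep_seq (α := R⟦X⟧ × R × (ℕ → R⟦X⟧))
    (fun k t => Stage c D k t.1 t.2.1 t.2.2)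
    (fun k t t' => (∀ m ≤ k, coeff m t'.1 = coeff m t.1) ∧ t.2.1 * t'.2.1 = t'.2.1)
    (1, z0, p)
    (by
      refine ⟨hzz0, hzc0, by simp, ?_, hp.right, hDp, ?_⟩
      · intro j m hm
        obtain rfl : m = 0 := by omega
        simp [hD.const, hdz0]
      · intro i m hm
        obtain rfl : m = 0 := by omega
        simp [hp.const])
    (by
      rintro k ⟨T, z, q⟩ h
      dsimp only at h
      obtain ⟨z', l, _, _, _, hzz, hzc, hcmb, _⟩ := tool hR hS (ι := ℕ) (κ := Option ℕ)
        (fun i => c i) (fun i => coeff (k + 1) (q i) - coeff (k + 1) T * c i) (fun _ => 0)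
        (fun o => o.elim (1 - z) fun j => coeff (k + 1) (D j * T))
        (fun o => o.elim 0 fun j => d j) (fun _ => 0) (by
          intro i o
          cases o with
          | none => simp [sub_mul, h.fixes i]
          | some j => simp [h.next_eq hD i j])
      have hz : z * z' = z' := by
        have := hcmb none
        simp only [Option.elim, zero_mul, add_zero, sub_mul, one_mul] at this
        exact (sub_eq_zero.1 this).symm
      have hl : ∀ j, d j * l = - coeff (k + 1) (D j * T) * z' := by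
        intro j
        have := hcmb (some j)
        simp only [Option.elim, zero_mul, add_zero] at this
        rw [neg_mul]
        exact eq_neg_of_add_eq_zero_right this
      obtain ⟨T', q', hst, hlow⟩ := h.advance hR hS hc hD hzz hz hzc hl
      exact ⟨(T', z', q'), hst, hlow, hz⟩)
  obtain ⟨T, hT⟩ := stable_limit (T := fun k => (st k).1) (fun k => (hQ k).1)
  obtain ⟨z, _, _, _, _, hzz, hzc, hcmb, _⟩ := tool hR hS (ι := ℕ) (κ := ℕ)
    (fun i => c i) (fun _ => 0) (fun _ => 0) (fun k => 1 - (st k).2.1)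
    (fun _ => 0) (fun _ => 0) (by intro i k; simp [sub_mul, (hP k).fixes i])
  have hYz : ∀ k, (st k).2.1 * z = z := by
    intro k
    have := hcmb k
    simp only [zero_mul, add_zero, sub_mul, one_mul] at this
    exact (sub_eq_zero.1 this).symm
  refine ⟨z, T * C z, hzz, hzc, ?_, ?_⟩
  · rw [map_mul, constantCoeff_C]
    have : constantCoeff T = 1 := by
      rw [← coeff_zero_eq_constantCoeff_apply, hT 0 0 le_rfl, coeff_zero_eq_constantCoeff_apply]
      exact (hP 0).const
    rw [this, one_mul]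
  · intro j
    ext m
    rw [← mul_assoc, coeff_mul_C, coeff_mul_congr_right (D j) (hT m) m le_rfl, ← hYz m,
      ← mul_assoc, (hP m).low j m le_rfl, zero_mul, map_zero]

end Pool.Agent.D0H74.WG
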