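import Pool.Agent.D0H74.WG.Pf

/-!
# Matrix rings

`PFM S`: for `F G = 0` in `M_n(S)` there is `H` with `F H = 0` and `H G = G` (for all `n`).
For `S = A[[x]]` this is equivalent to: `A` is regular and all matrix rings over `A` are separated.
-/

set_option autoImplicit false

namespace Pool.Agent.D0H74.WG

open PowerSeries MulOpposite

universe u

/-- relations between matrices are generated by idempotent-like matrices -/
def PFM (S : Type u) [Ring S] : Prop :=
  ∀ (n : ℕ) (F G : Matrix (Fin n) (Fin n) S), F * G = 0 →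
    ∃ H : Matrix (Fin n) (Fin n) S, F * H = 0 ∧ H * G = G

variable {A : Type u} [Ring A]

/-! ### matrix rings over regular rings -/

/-- every matrix of this shape has a quasi-inverse -/
def RegM (A : Type u) [Ring A] (m : ℕ) (ι : Type) [Fintype ι] : Prop :=
  ∀ f : Matrix (Fin m) ι A, ∃ g : Matrix ι (Fin m) A, f * g * f = f

theorem regM_unit (hA : Regular A) (m : ℕ) : RegM A m Unit := by
  intro v
  obtain ⟨ρ', hρ'⟩ := hA.op.row (fun t => op (v t ()))
  refine ⟨Matrix.of fun _ t => unop (ρ' t), ?_⟩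
  rw [Matrix.mul_assoc]
  ext t u
  obtain rfl : u = () := rfl
  have h1 := congrArg unop (hρ' t)
  simp only [dotProduct, unop_mul, unop_op, Finset.unop_sum] at h1
  rw [Matrix.mul_apply]
  simp only [Finset.univ_unique, Finset.sum_singleton, Matrix.mul_apply, Matrix.of_apply]
  exact h1

theorem regM_step {m : ℕ} {ι : Type} [Fintype ι] (h1 : RegM A m Unit) (h : RegM A m ι) :
    RegM A m (ι ⊕ Unit) := by
  intro f
  obtain ⟨g', hg'⟩ := h f.toCols₁
  set f' := f.toCols₁ with hf'
  set v := f.toCols₂ with hv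
  obtain ⟨w', hw'⟩ := h1 ((1 - f' * g') * v)
  set e := f' * g' with he
  refine ⟨Matrix.fromRows (g' * (1 - v * (w' * (1 - e)))) (w' * (1 - e)), ?_⟩
  have hf : f = Matrix.fromCols f' v := (Matrix.fromCols_toCols f).symm
  rw [hf, Matrix.fromCols_mul_fromRows, Matrix.mul_fromCols, ← Matrix.mul_assoc f' g', ← he]
  have hef : e * f' = f' := hg'
  have hw2 : (1 - e) * v * w' * ((1 - e) * v) = (1 - e) * v := hw'
  have k1 : (1 - e) * f' = 0 := by rw [Matrix.sub_mul, Matrix.one_mul, hef, sub_self]
  have k2 : (e * (1 - v * (w' * (1 - e))) + v * (w' * (1 - e))) =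
      e + (1 - e) * v * w' * (1 - e) := by
    simp only [Matrix.mul_sub, Matrix.sub_mul, Matrix.mul_assoc, Matrix.one_mul, Matrix.mul_one]
    abel
  rw [k2, Matrix.add_mul, Matrix.mul_assoc _ (1 - e) f', k1, Matrix.mul_zero, add_zero, hef,
    Matrix.add_mul, Matrix.mul_assoc _ (1 - e) v, hw2, Matrix.sub_mul, Matrix.one_mul]
  congr 1
  abel

theorem regM_equiv {m : ℕ} {ι κ : Type} [Fintype ι] [Fintype κ] (e : ι ≃ κ) (h : RegM A m ι) :
    RegM A m κ := by
  intro f
  obtain ⟨g, hg⟩ := h (f.submatrix id e)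
  refine ⟨g.submatrix e.symm id, ?_⟩
  have h1 : f * g.submatrix e.symm id = f.submatrix id e * g := by
    ext i j
    simp only [Matrix.mul_apply, Matrix.submatrix_apply, id]
    exact (Equiv.sum_comp e (fun x => f i x * g (e.symm x) j)).symm.trans (by simp)
  rw [h1]
  ext i j
  have h2 := congrFun (congrFun hg i) (e.symm j)
  simp only [Matrix.submatrix_apply, id, Equiv.apply_symm_apply] at h2
  rw [← h2]
  simp [Matrix.mul_apply]

theorem regM_fin (hA : Regular A) (m n : ℕ) : RegM A m (Fin n) := by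
  induction n with
  | zero => exact fun f => ⟨0, by ext i j; exact j.elim0⟩
  | succ n ih =>
    refine regM_equiv (ι := Fin n ⊕ Unit) ?_ (regM_step (regM_unit hA m) ih)
    exact (Equiv.sumCongr (Equiv.refl _) (Equiv.ofUnique Unit (Fin 1))).trans finSumFinEquiv

theorem Regular.matrix (hA : Regular A) (n : ℕ) : Regular (Matrix (Fin n) (Fin n) A) :=
  fun f => regM_fin hA n n f

/-! ### separation -/

theorem Separated.of_mulEquiv {S T : Type*} [Ring S] [Ring T] (e : S ≃* T) (hT : Separated T) :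
    Separated S := by
  intro a b hab
  obtain ⟨h, h1, h2⟩ := hT (fun i => e (a i)) (fun j => e (b j)) (fun i j => by
    rw [← map_mul, hab, map_zero])
  refine ⟨e.symm h, fun i => e.injective ?_, fun j => e.injective ?_⟩
  · rw [map_mul, e.apply_symm_apply, h1]
  · rw [map_mul, e.apply_symm_apply, h2, map_zero]

/-- reindexing of square matrices -/
def reindexMul {ι κ : Type} [Fintype ι] [Fintype κ] (e : ι ≃ κ) :
    Matrix ι ι A ≃* Matrix κ κ A where
  toFun M := M.submatrix e.symm e.symm
  invFun M := M.submatrix e e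
  left_inv M := by ext i j; simp
  right_inv M := by ext i j; simp
  map_mul' M N := (Matrix.submatrix_mul_equiv M N e.symm e.symm e.symm).symm

theorem Separated.matrix3 (hS : ∀ n, Separated (Matrix (Fin n) (Fin n) A)) (n : ℕ) :
    Separated (Matrix (Fin 3) (Fin 3) (Matrix (Fin n) (Fin n) A)) :=
  Separated.of_mulEquiv (((Matrix.compRingEquiv (Fin 3) (Fin n) A).toMulEquiv).trans
    (reindexMul finProdFinEquiv)) (hS (3 * n))

/-! ### power series over matrices -/

/-- matrices of power series as power series of matrices -/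
noncomputable def toPS {n : ℕ} (F : Matrix (Fin n) (Fin n) A⟦X⟧) :
    (Matrix (Fin n) (Fin n) A)⟦X⟧ :=
  PowerSeries.mk fun k => Matrix.of fun i j => coeff k (F i j)

/-- power series of matrices as matrices of power series -/
noncomputable def ofPS {n : ℕ} (f : (Matrix (Fin n) (Fin n) A)⟦X⟧) :
    Matrix (Fin n) (Fin n) A⟦X⟧ :=
  Matrix.of fun i j => PowerSeries.mk fun k => coeff k f i j

theorem coeff_toPS {n : ℕ} (F : Matrix (Fin n) (Fin n) A⟦X⟧) (k : ℕ) (i j : Fin n) :
    coeff k (toPS F) i j = coeff k (F i j) := by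
  rw [toPS, coeff_mk, Matrix.of_apply]

theorem coeff_ofPS {n : ℕ} (f : (Matrix (Fin n) (Fin n) A)⟦X⟧) (k : ℕ) (i j : Fin n) :
    coeff k (ofPS f i j) = coeff k f i j := by
  rw [ofPS, Matrix.of_apply, coeff_mk]

theorem toPS_ofPS {n : ℕ} (f : (Matrix (Fin n) (Fin n) A)⟦X⟧) : toPS (ofPS f) = f := by
  ext k i j
  rw [coeff_toPS, coeff_ofPS]

theorem ofPS_toPS {n : ℕ} (F : Matrix (Fin n) (Fin n) A⟦X⟧) : ofPS (toPS F) = F := by
  ext i j k
  rw [coeff_ofPS, coeff_toPS]

theorem toPS_mul {n : ℕ} (F G : Matrix (Fin n) (Fin n) A⟦X⟧) :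
    toPS (F * G) = toPS F * toPS G := by
  ext k i j
  rw [coeff_toPS, Matrix.mul_apply, map_sum, coeff_mul, Matrix.sum_apply]
  simp only [coeff_mul, Matrix.mul_apply, coeff_toPS]
  exact Finset.sum_comm

theorem toPS_zero {n : ℕ} : toPS (0 : Matrix (Fin n) (Fin n) A⟦X⟧) = 0 := by
  ext k i j
  rw [coeff_toPS]
  simp

theorem ofPS_mul {n : ℕ} (f g : (Matrix (Fin n) (Fin n) A)⟦X⟧) :
    ofPS (f * g) = ofPS f * ofPS g := by
  rw [← toPS_ofPS f, ← toPS_ofPS g, ← toPS_mul, ofPS_toPS, ofPS_toPS, ofPS_toPS]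

theorem ofPS_zero {n : ℕ} : ofPS (0 : (Matrix (Fin n) (Fin n) A)⟦X⟧) = 0 := by
  rw [← toPS_zero, ofPS_toPS]

/-- sufficiency -/
theorem pfm_of (hA : Regular A) (hS : ∀ n, Separated (Matrix (Fin n) (Fin n) A)) :
    PFM A⟦X⟧ := by
  intro n F G hFG
  obtain ⟨h, h1, h2⟩ := pf (hA.matrix n) (Separated.matrix3 hS n) (f := toPS F) (g := toPS G)
    (by rw [← toPS_mul, hFG, toPS_zero])
  refine ⟨ofPS h, ?_, ?_⟩
  · rw [← ofPS_toPS F, ← ofPS_mul, h1, ofPS_zero]
  · rw [← ofPS_toPS G, ← ofPS_mul, h2]

/-! ### necessity -/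

theorem regular_of_pfm (h : PFM A⟦X⟧) : Regular A := by
  intro a
  obtain ⟨H, h1, h2⟩ := h 2 !![C a, X; 0, 0] !![X, 0; -C a, 0] (by
    ext i j
    fin_cases i <;> fin_cases j <;>
      simp [Matrix.mul_apply, Fin.sum_univ_two, X_mul])
  have e1 : C a * H 0 1 + X * H 1 1 = 0 := by
    have := congrFun (congrFun h1 0) 1
    simpa [Matrix.mul_apply, Fin.sum_univ_two] using this
  have e2 : H 1 0 * X + H 1 1 * (- C a) = - C a := by
    have := congrFun (congrFun h2 1) 0
    simpa [Matrix.mul_apply, Fin.sum_univ_two] using this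
  have f1 := congrArg (coeff (0 + 1)) e1
  have f2 := congrArg constantCoeff e2
  rw [map_add, coeff_C_mul, coeff_succ_X_mul, map_zero] at f1
  rw [map_add, map_mul, map_mul, constantCoeff_X, mul_zero, zero_add, map_neg,
    constantCoeff_C, mul_neg, neg_inj] at f2
  rw [coeff_zero_eq_constantCoeff_apply] at f1
  refine ⟨- coeff (0 + 1) (H 0 1), ?_⟩
  have f3 : constantCoeff (H 1 1) = - (a * coeff (0 + 1) (H 0 1)) :=
    eq_neg_of_add_eq_zero_right f1
  rw [mul_neg, ← f3, f2]

theorem separated_of_pf {R : Type u} [Ring R] (hR : Regular R)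
    (h : ∀ f g : R⟦X⟧, f * g = 0 → ∃ h : R⟦X⟧, f * h = 0 ∧ h * g = g) : Separated R := by
  intro a b hab
  obtain ⟨d, D, hD, hD1, hD2⟩ := orthogonalize hR (fun k => C (b k))
  have hda : ∀ i j, d j * a i = 0 := by
    intro i j
    have := congrArg constantCoeff (hD1 (C (a i)) (fun k => by rw [← map_mul, hab, map_zero]) j)
    rwa [map_mul, hD.const, constantCoeff_C, map_zero] at this
  obtain ⟨c, p, hp, hp1, hp2⟩ := orthogonalize hR.op (fun k => C (op (a k)))
  have hdc : ∀ i j, d j * unop (c i) = 0 := by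
    intro i j
    have := congrArg constantCoeff (hp1 (C (op (d j))) (fun k => by
      rw [← map_mul, ← op_mul, hda, op_zero, map_zero]) i)
    rw [map_mul, hp.const, constantCoeff_C, map_zero] at this
    have h2 := congrArg unop this
    simpa using h2
  obtain ⟨x, hx1, hx2⟩ := h (PowerSeries.mk d) (PowerSeries.mk fun i => unop (c i)) (by
    ext m
    rw [coeff_mul, map_zero]
    refine Finset.sum_eq_zero fun y _ => ?_
    rw [coeff_mk, coeff_mk, hdc])
  have e1 : ∀ j, C (d j) * PowerSeries.mk d = monomial j (d j) := by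
    intro j
    ext m
    rw [coeff_C_mul, coeff_mk, hD.orth.mul, coeff_monomial]
    by_cases hjm : j = m
    · subst hjm; simp
    · have : ¬ m = j := fun h => hjm h.symm
      simp [hjm, this]
  have e2 : ∀ i, (PowerSeries.mk fun i => unop (c i)) * C (unop (c i)) =
      monomial i (unop (c i)) := by
    intro i
    ext m
    rw [coeff_mul_C, coeff_mk, ← unop_mul, hp.orth.mul, coeff_monomial]
    by_cases hjm : i = m
    · subst hjm; simp
    · have : ¬ m = i := fun h => hjm h.symm
      simp [hjm, this]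
  have cm : ∀ (j : ℕ) (y : R) (z : R⟦X⟧), coeff j (monomial j y * z) = y * constantCoeff z := by
    intro j y z
    rw [coeff_mul, Finset.sum_eq_single (j, 0)]
    · simp
    · intro w hw hne
      rw [Finset.HasAntidiagonal.mem_antidiagonal] at hw
      rw [coeff_monomial, if_neg, zero_mul]
      intro hcon
      apply hne
      ext <;> simp <;> omega
    · intro h
      exact absurd (Finset.HasAntidiagonal.mem_antidiagonal.2 (by simp)) h
  have cm' : ∀ (j : ℕ) (y : R) (z : R⟦X⟧), coeff j (z * monomial j y) = constantCoeff z * y := by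
    intro j y z
    rw [coeff_mul, Finset.sum_eq_single (0, j)]
    · simp
    · intro w hw hne
      rw [Finset.HasAntidiagonal.mem_antidiagonal] at hw
      rw [coeff_monomial, if_neg, mul_zero]
      intro hcon
      apply hne
      ext <;> simp <;> omega
    · intro h
      exact absurd (Finset.HasAntidiagonal.mem_antidiagonal.2 (by simp)) h
  have g1 : ∀ j, d j * constantCoeff x = 0 := by
    intro j
    have : coeff j (C (d j) * (PowerSeries.mk d * x)) = coeff j (C (d j) * 0) := by rw [hx1]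
    rwa [← mul_assoc, e1, cm, mul_zero, map_zero] at this
  have g2 : ∀ i, constantCoeff x * unop (c i) = unop (c i) := by
    intro i
    have : coeff i ((x * PowerSeries.mk fun i => unop (c i)) * C (unop (c i))) =
        coeff i ((PowerSeries.mk fun i => unop (c i)) * C (unop (c i))) := by rw [hx2]
    rw [mul_assoc, e2, cm', coeff_monomial, if_pos rfl] at this
    exact this
  refine ⟨constantCoeff x, fun i => ?_, fun j => ?_⟩
  · have := hp2 (op (1 - constantCoeff x)) (fun j => by
      apply unop_injective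
      simp only [unop_mul, unop_op, unop_zero]
      rw [sub_mul, one_mul, g2, sub_self]) i
    rw [constantCoeff_C, ← op_mul] at this
    have h3 := congrArg unop this
    rw [unop_op, unop_zero, sub_mul, one_mul, sub_eq_zero] at h3
    exact h3.symm
  · have := hD2 (constantCoeff x) g1 j
    rwa [constantCoeff_C] at this

/-- **Rings `A` such that relations of matrices over `A[[x]]` are trivial.** -/
theorem pfm_iff : PFM A⟦X⟧ ↔ Regular A ∧ ∀ n, Separated (Matrix (Fin n) (Fin n) A) := by
  constructor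
  · intro h
    have hA := regular_of_pfm h
    refine ⟨hA, fun n => separated_of_pf (hA.matrix n) fun f g hfg => ?_⟩
    obtain ⟨H, h1, h2⟩ := h n (ofPS f) (ofPS g) (by rw [← ofPS_mul, hfg, ofPS_zero])
    refine ⟨toPS H, ?_, ?_⟩
    · rw [← toPS_ofPS f, ← toPS_mul, h1, toPS_zero]
    · conv_rhs => rw [← toPS_ofPS g]
      rw [← h2, toPS_mul, toPS_ofPS]
  · rintro ⟨hA, hS⟩
    exact pfm_of hA hS

end Pool.Agent.D0H74.WG
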