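import Pool.Agent.D0H74.WG.Tower

/-!
# Reduction of power series to lifting data
-/

set_option autoImplicit false

namespace Pool.Agent.D0H74.WG

open PowerSeries

universe u

variable {R : Type u} [Ring R]

theorem one_step (hR : Regular R) (s B : R⟦X⟧)
    (h1 : constantCoeff s * constantCoeff s = constantCoeff s) :
    ∃ E : R⟦X⟧, constantCoeff E * constantCoeff E = constantCoeff E ∧
      constantCoeff E * constantCoeff s = 0 ∧ constantCoeff s * constantCoeff E = 0 ∧
      C (constantCoeff E) * E = E ∧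
      constantCoeff B * (constantCoeff s + constantCoeff E) = constantCoeff B ∧
      ∃ G : R⟦X⟧, E = G * (B - C (constantCoeff B) * s) := by
  set σ := constantCoeff s with hσ
  set a := constantCoeff B * (1 - σ) with ha
  obtain ⟨b, hb⟩ := hR a
  have haσ : a * σ = 0 := by rw [ha, mul_assoc, sub_mul, one_mul, h1, sub_self, mul_zero]
  have ha1 : a * (1 - σ) = a := by rw [mul_sub, mul_one, haσ, sub_zero]
  set d := (1 - σ) * b * a with hd
  have hdd : d * d = d := by
    have : d * d = (1 - σ) * b * (a * (1 - σ) * b * a) := by rw [hd]; noncomm_ring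
    rw [this, ha1, hb]
  have hdσ : d * σ = 0 := by rw [hd, mul_assoc, haσ, mul_zero]
  have hσd : σ * d = 0 := by
    have : σ * d = (σ - σ * σ) * b * a := by rw [hd]; noncomm_ring
    rw [this, h1, sub_self, zero_mul, zero_mul]
  have hconst : constantCoeff (C (d * (1 - σ) * b) * (B - C (constantCoeff B) * s)) = d := by
    rw [_root_.map_mul constantCoeff, map_sub, _root_.map_mul constantCoeff (C (constantCoeff B)),
      constantCoeff_C, constantCoeff_C, ← hσ]
    have : d * (1 - σ) * b * (constantCoeff B - constantCoeff B * σ) = d * ((1 - σ) * b * a) := by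
      rw [ha]; noncomm_ring
    rw [this, ← hd, hdd]
  refine ⟨C (d * (1 - σ) * b) * (B - C (constantCoeff B) * s), ?_, ?_, ?_, ?_, ?_, _, rfl⟩
  · rw [hconst, hdd]
  · rw [hconst, hdσ]
  · rw [hconst, hσd]
  · rw [hconst, ← mul_assoc, ← map_mul, ← mul_assoc, ← mul_assoc, hdd]
  · rw [hconst]
    have h3 : a * d = a := by
      have : a * d = a * (1 - σ) * b * a := by rw [hd]; noncomm_ring
      rw [this, ha1, hb]
    have h4 : constantCoeff B * (σ + d) = constantCoeff B * σ + a * d +
      constantCoeff B * (σ * d) := by rw [ha]; noncomm_ring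
    rw [h4, h3, hσd, ha]; noncomm_ring

/-- the increments of a good sequence of partial sums are lifting data -/
theorem lData_of_steps {s : ℕ → R⟦X⟧} (_ : s 0 = 0)
    (h1 : ∀ k, constantCoeff (s (k + 1) - s k) * constantCoeff (s (k + 1) - s k) =
      constantCoeff (s (k + 1) - s k))
    (h2 : ∀ k, constantCoeff (s (k + 1) - s k) * constantCoeff (s k) = 0)
    (h3 : ∀ k, constantCoeff (s k) * constantCoeff (s (k + 1) - s k) = 0)
    (h4 : ∀ k, C (constantCoeff (s (k + 1) - s k)) * (s (k + 1) - s k) = s (k + 1) - s k) :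
    LData (fun k => constantCoeff (s (k + 1) - s k)) (fun k => s (k + 1) - s k) := by
  set d : ℕ → R := fun k => constantCoeff (s (k + 1) - s k) with hd
  have hs : ∀ k, constantCoeff (s (k + 1)) = constantCoeff (s k) + d k := by
    intro k
    show _ = _ + constantCoeff (s (k + 1) - s k)
    rw [map_sub]; abel
  have key : ∀ i j, i < j → constantCoeff (s j) * d i = d i ∧ d i * constantCoeff (s j) = d i := by
    intro i j hij
    induction j, hij using Nat.le_induction with
    | base =>
      rw [hs, add_mul, mul_add]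
      exact ⟨by rw [show constantCoeff (s i) * d i = 0 from h3 i, show d i * d i = d i from h1 i,
        zero_add], by rw [show d i * constantCoeff (s i) = 0 from h2 i,
        show d i * d i = d i from h1 i, zero_add]⟩
    | succ j hj ih =>
      rw [hs, add_mul, mul_add]
      have e1 : d j * d i = 0 := by
        rw [← ih.1, ← mul_assoc, show d j * constantCoeff (s j) = 0 from h2 j, zero_mul]
      have e2 : d i * d j = 0 := by
        rw [← ih.2, mul_assoc, show constantCoeff (s j) * d j = 0 from h3 j, mul_zero]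
      exact ⟨by rw [e1, add_zero, ih.1], by rw [e2, add_zero, ih.2]⟩
  refine ⟨⟨h1, ?_⟩, fun _ => rfl, h4⟩
  intro i j hij
  rcases lt_or_gt_of_ne hij with h | h
  · rw [← (key i j h).2, mul_assoc, show constantCoeff (s j) * d j = 0 from h3 j, mul_zero]
  · rw [← (key j i h).1, ← mul_assoc, show d i * constantCoeff (s i) = 0 from h2 i, zero_mul]

theorem partial_kill {s : ℕ → R⟦X⟧} (h0 : s 0 = 0) {θ : R⟦X⟧}
    (h : ∀ k, (s (k + 1) - s k) * θ = 0) : ∀ k, s k * θ = 0 := by
  intro k
  induction k with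
  | zero => rw [h0, zero_mul]
  | succ k ih =>
    have := h k
    rw [sub_mul, ih, sub_zero] at this
    exact this

theorem partial_kill' {s : ℕ → R⟦X⟧} (h0 : s 0 = 0) {z : R}
    (h : ∀ k, constantCoeff (s (k + 1) - s k) * z = 0) : ∀ k, constantCoeff (s k) * z = 0 := by
  intro k
  induction k with
  | zero => rw [h0, map_zero, zero_mul]
  | succ k ih =>
    have := h k
    rw [map_sub, sub_mul, ih, sub_zero] at this
    exact this

theorem X_mul_cancel {A : R⟦X⟧} (h : X * A = 0) : A = 0 := by
  ext m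
  have := congrArg (coeff (m + 1)) h
  rwa [coeff_succ_X_mul, map_zero] at this

theorem exists_X_mul {A : R⟦X⟧} (h : constantCoeff A = 0) : ∃ B : R⟦X⟧, A = X * B := by
  refine ⟨PowerSeries.mk fun n => coeff (n + 1) A, ?_⟩
  ext m
  cases m with
  | zero => rw [coeff_zero_X_mul, coeff_zero_eq_constantCoeff_apply, h]
  | succ m => rw [coeff_succ_X_mul, coeff_mk]

theorem step_idem {s E : R⟦X⟧}
    (h1 : constantCoeff s * constantCoeff s = constantCoeff s)
    (h2 : C (constantCoeff s) * s = s)
    (e1 : constantCoeff E * constantCoeff E = constantCoeff E)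
    (e2 : constantCoeff E * constantCoeff s = 0) (e3 : constantCoeff s * constantCoeff E = 0)
    (e4 : C (constantCoeff E) * E = E) :
    constantCoeff (s + E) * constantCoeff (s + E) = constantCoeff (s + E) ∧
      C (constantCoeff (s + E)) * (s + E) = s + E := by
  constructor
  · rw [map_add, add_mul, mul_add, mul_add, h1, e1, e2, e3, add_zero, zero_add]
  · rw [map_add, map_add, add_mul, mul_add, mul_add, h2, e4]
    have a1 : C (constantCoeff s) * E = 0 := by
      rw [← e4, ← mul_assoc, ← map_mul, e3, map_zero, zero_mul]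
    have a2 : C (constantCoeff E) * s = 0 := by
      rw [← h2, ← mul_assoc, ← map_mul, e2, map_zero, zero_mul]
    rw [a1, a2, add_zero, zero_add]

/-- **Reduction of one power series.** -/
theorem reduction (hR : Regular R) (f : R⟦X⟧) :
    ∃ (d : ℕ → R) (D : ℕ → R⟦X⟧), LData d D ∧ (∀ θ, f * θ = 0 → ∀ j, D j * θ = 0) ∧
      ∀ θ, (∀ j, D j * θ = 0) → f * θ = 0 := by
  obtain ⟨st, h0, hP, hQ⟩ := dep_seq (α := R⟦X⟧ × R⟦X⟧)
    (fun _ t => constantCoeff t.1 * constantCoeff t.1 = constantCoeff t.1 ∧
      C (constantCoeff t.1) * t.1 = t.1 ∧ ∀ θ, f * θ = 0 → t.1 * θ = 0 ∧ t.2 * θ = 0)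
    (fun _ t t' => constantCoeff (t'.1 - t.1) * constantCoeff (t'.1 - t.1) =
        constantCoeff (t'.1 - t.1) ∧ constantCoeff (t'.1 - t.1) * constantCoeff t.1 = 0 ∧
      constantCoeff t.1 * constantCoeff (t'.1 - t.1) = 0 ∧
      C (constantCoeff (t'.1 - t.1)) * (t'.1 - t.1) = t'.1 - t.1 ∧
      t.2 = C (constantCoeff t.2) * t'.1 + X * t'.2)
    (0, f)
    (by simp)
    (by
      rintro _ ⟨s, B⟩ ⟨h1, h2, hk⟩
      dsimp only at *
      obtain ⟨E, e1, e2, e3, e4, e5, G, hG⟩ := one_step hR s B h1
      obtain ⟨B', hB'⟩ := exists_X_mul (A := B - C (constantCoeff B) * (s + E)) (by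
        rw [map_sub, map_mul, constantCoeff_C, map_add, e5, sub_self])
      have hE : ∀ θ, f * θ = 0 → E * θ = 0 := by
        intro θ hθ
        rw [hG, mul_assoc, sub_mul, (hk θ hθ).2, mul_assoc (C _), (hk θ hθ).1, mul_zero, sub_zero,
          mul_zero]
      obtain ⟨i1, i2⟩ := step_idem h1 h2 e1 e2 e3 e4
      refine ⟨(s + E, B'), ⟨i1, i2, ?_⟩, ?_⟩
      · intro θ hθ
        have hs : (s + E) * θ = 0 := by rw [add_mul, (hk θ hθ).1, hE θ hθ, add_zero]
        refine ⟨hs, X_mul_cancel ?_⟩
        rw [← mul_assoc, ← hB', sub_mul, (hk θ hθ).2, mul_assoc, hs, mul_zero, sub_zero]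
      · dsimp only
        have : s + E - s = E := by abel
        rw [this]
        refine ⟨e1, e2, e3, e4, ?_⟩
        rw [← hB']; abel)
  have hs0 : (st 0).1 = 0 := by rw [h0]
  have hB0 : (st 0).2 = f := by rw [h0]
  refine ⟨_, _, lData_of_steps (s := fun k => (st k).1) hs0 (fun k => (hQ k).1)
    (fun k => (hQ k).2.1) (fun k => (hQ k).2.2.1) (fun k => (hQ k).2.2.2.1), ?_, ?_⟩
  · intro θ hθ j
    show ((st (j + 1)).1 - (st j).1) * θ = 0
    rw [sub_mul, ((hP (j + 1)).2.2 θ hθ).1, ((hP j).2.2 θ hθ).1, sub_self]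
  · intro θ hθ
    have hsk := partial_kill (s := fun k => (st k).1) hs0 hθ
    have key : ∀ m k, coeff m ((st k).2 * θ) = 0 := by
      intro m
      induction m with
      | zero =>
        intro k
        rw [(hQ k).2.2.2.2, add_mul, mul_assoc, hsk (k + 1), mul_zero, zero_add, mul_assoc,
          coeff_zero_X_mul]
      | succ m ih =>
        intro k
        rw [(hQ k).2.2.2.2, add_mul, mul_assoc, hsk (k + 1), mul_zero, zero_add, mul_assoc,
          coeff_succ_X_mul]
        exact ih (k + 1)
    ext m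
    have := key m 0
    rwa [hB0] at this

/-- **Orthogonalisation of a sequence of power series.** -/
theorem orthogonalize (hR : Regular R) (A : ℕ → R⟦X⟧) :
    ∃ (d : ℕ → R) (D : ℕ → R⟦X⟧), LData d D ∧ (∀ θ, (∀ k, A k * θ = 0) → ∀ j, D j * θ = 0) ∧
      ∀ z, (∀ j, d j * z = 0) → ∀ k, constantCoeff (A k) * z = 0 := by
  obtain ⟨st, h0, hP, hQ⟩ := dep_seq (α := R⟦X⟧)
    (fun _ t => constantCoeff t * constantCoeff t = constantCoeff t ∧
      C (constantCoeff t) * t = t ∧ ∀ θ, (∀ k, A k * θ = 0) → t * θ = 0)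
    (fun k t t' => constantCoeff (t' - t) * constantCoeff (t' - t) =
        constantCoeff (t' - t) ∧ constantCoeff (t' - t) * constantCoeff t = 0 ∧
      constantCoeff t * constantCoeff (t' - t) = 0 ∧
      C (constantCoeff (t' - t)) * (t' - t) = t' - t ∧
      constantCoeff (A k) * constantCoeff t' = constantCoeff (A k))
    0
    (by simp)
    (by
      rintro k s ⟨h1, h2, hk⟩
      obtain ⟨E, e1, e2, e3, e4, e5, G, hG⟩ := one_step hR s (A k) h1
      obtain ⟨i1, i2⟩ := step_idem h1 h2 e1 e2 e3 e4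
      refine ⟨s + E, ⟨i1, i2, ?_⟩, ?_⟩
      · intro θ hθ
        rw [add_mul, hk θ hθ, hG, mul_assoc, sub_mul, hθ k, mul_assoc (C _), hk θ hθ]
        simp
      · have : s + E - s = E := by abel
        rw [this, map_add]
        exact ⟨e1, e2, e3, e4, e5⟩)
  refine ⟨_, _, lData_of_steps (s := st) h0 (fun k => (hQ k).1)
    (fun k => (hQ k).2.1) (fun k => (hQ k).2.2.1) (fun k => (hQ k).2.2.2.1), ?_, ?_⟩
  · intro θ hθ j
    show (st (j + 1) - st j) * θ = 0
    rw [sub_mul, (hP (j + 1)).2.2 θ hθ, (hP j).2.2 θ hθ, sub_self]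
  · intro z hz k
    have := partial_kill' (s := st) h0 hz (k + 1)
    rw [← (hQ k).2.2.2.2, mul_assoc, this, mul_zero]

end Pool.Agent.D0H74.WG
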