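import Pool.Agent.D0H74.WG.ClaimB
import Pool.Agent.D0H74.WG.Reduce

/-!
# Principal ideals of `R[[x]]` are flat

If `R` is regular and `M_3(R)` is separated then for `f g = 0` in `R[[x]]` there is `h` with
`f h = 0` and `h g = g`.
-/

set_option autoImplicit false

namespace Pool.Agent.D0H74.WG

open PowerSeries MulOpposite

universe u

section op

variable {R : Type u} [Ring R]

/-- the power series over the opposite ring with the same coefficients -/
noncomputable def opPS (f : R⟦X⟧) : Rᵐᵒᵖ⟦X⟧ := PowerSeries.mk fun n => op (coeff n f)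

/-- the power series with the same coefficients -/
noncomputable def unopPS (f : Rᵐᵒᵖ⟦X⟧) : R⟦X⟧ := PowerSeries.mk fun n => unop (coeff n f)

theorem coeff_opPS (f : R⟦X⟧) (n : ℕ) : coeff n (opPS f) = op (coeff n f) := coeff_mk _ _

theorem coeff_unopPS (f : Rᵐᵒᵖ⟦X⟧) (n : ℕ) : coeff n (unopPS f) = unop (coeff n f) := coeff_mk _ _

theorem unopPS_opPS (f : R⟦X⟧) : unopPS (opPS f) = f := by
  ext n
  rw [coeff_unopPS, coeff_opPS, unop_op]

theorem opPS_unopPS (f : Rᵐᵒᵖ⟦X⟧) : opPS (unopPS f) = f := by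
  ext n
  rw [coeff_opPS, coeff_unopPS, op_unop]

theorem opPS_mul (f g : R⟦X⟧) : opPS (f * g) = opPS g * opPS f := by
  ext n
  rw [coeff_opPS, coeff_mul, coeff_mul, ← Finset.Nat.sum_antidiagonal_swap, Finset.op_sum]
  refine Finset.sum_congr rfl fun x _ => ?_
  simp only [Prod.fst_swap, Prod.snd_swap, op_mul, coeff_opPS]

theorem opPS_zero : opPS (0 : R⟦X⟧) = 0 := by
  ext n
  rw [coeff_opPS]; simp

theorem unopPS_zero : unopPS (0 : Rᵐᵒᵖ⟦X⟧) = 0 := by
  ext n
  rw [coeff_unopPS]; simp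

theorem unopPS_mul (f g : Rᵐᵒᵖ⟦X⟧) : unopPS (f * g) = unopPS g * unopPS f := by
  rw [← opPS_unopPS f, ← opPS_unopPS g, ← opPS_mul, unopPS_opPS, unopPS_opPS, unopPS_opPS]

theorem const_opPS (f : R⟦X⟧) : constantCoeff (opPS f) = op (constantCoeff f) := by
  rw [← coeff_zero_eq_constantCoeff_apply, coeff_opPS, coeff_zero_eq_constantCoeff_apply]

theorem const_unopPS (f : Rᵐᵒᵖ⟦X⟧) : constantCoeff (unopPS f) = unop (constantCoeff f) := by
  rw [← coeff_zero_eq_constantCoeff_apply, coeff_unopPS, coeff_zero_eq_constantCoeff_apply]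

theorem opPS_C (a : R) : opPS (C a) = C (op a) := by
  ext n
  rw [coeff_opPS, coeff_C, coeff_C]
  split_ifs <;> simp

theorem Regular.op (hR : Regular R) : Regular Rᵐᵒᵖ := by
  intro a
  obtain ⟨b, hb⟩ := hR (unop a)
  exact ⟨MulOpposite.op b, by apply unop_injective; simpa [mul_assoc] using hb⟩

/-- separation and anti-isomorphisms -/
theorem Separated.of_anti {S T : Type*} [Ring S] [Ring T] (f : S → T) (g : T → S)
    (hfg : ∀ t, f (g t) = t) (hgf : ∀ s, g (f s) = s) (hmul : ∀ a b, f (a * b) = f b * f a)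
    (hsub : ∀ a b, f (a - b) = f a - f b) (h1 : f 1 = 1) (hT : Separated T) : Separated S := by
  have h0 : f 0 = 0 := by
    have := hsub 0 0
    simpa using this
  intro a b hab
  obtain ⟨h, h2, h3⟩ := hT (fun i => f (b i)) (fun j => f (a j)) (fun i j => by
    rw [← hmul, hab, h0])
  have inj : Function.Injective f := fun x y hxy => by rw [← hgf x, ← hgf y, hxy]
  refine ⟨1 - g h, fun i => inj ?_, fun j => inj ?_⟩
  · rw [hmul, hsub, h1, hfg, mul_sub, mul_one, h3, sub_zero]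
  · rw [hmul, hsub, h1, hfg, sub_mul, one_mul, h2, sub_self, h0]

theorem Separated.matrix_op {n : ℕ} (hS : Separated (Matrix (Fin n) (Fin n) R)) :
    Separated (Matrix (Fin n) (Fin n) Rᵐᵒᵖ) := by
  refine Separated.of_anti (T := Matrix (Fin n) (Fin n) R)
    (fun M => Matrix.of fun i j => unop (M j i)) (fun M => Matrix.of fun i j => MulOpposite.op (M j i))
    ?_ ?_ ?_ ?_ ?_ hS
  · intro t; ext i j; simp
  · intro t; ext i j; simp
  · intro a b
    ext i j
    simp [Matrix.mul_apply, Finset.unop_sum]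
  · intro a b; ext i j; simp
  · ext i j
    simp only [Matrix.of_apply, Matrix.one_apply]
    by_cases h : i = j
    · subst h; simp
    · have h' : ¬ j = i := fun h2 => h h2.symm
      simp [h, h']

theorem PData.op {c : ℕ → R} {p : ℕ → R⟦X⟧} (h : PData c p) :
    LData (fun i => MulOpposite.op (c i)) (fun i => opPS (p i)) := by
  refine ⟨⟨fun i => ?_, fun i j hij => ?_⟩, fun i => ?_, fun i => ?_⟩
  · rw [← op_mul, h.orth.1]
  · rw [← op_mul, h.orth.2 _ _ hij.symm, op_zero]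
  · rw [const_opPS, h.const]
  · rw [← opPS_C, ← opPS_mul, h.right]

theorem LData.op {c : ℕ → R} {p : ℕ → R⟦X⟧} (h : LData c p) :
    PData (fun i => MulOpposite.op (c i)) (fun i => opPS (p i)) := by
  refine ⟨⟨fun i => ?_, fun i j hij => ?_⟩, fun i => ?_, fun i => ?_⟩
  · rw [← op_mul, h.orth.1]
  · rw [← op_mul, h.orth.2 _ _ hij.symm, op_zero]
  · rw [const_opPS, h.const]
  · rw [← opPS_C, ← opPS_mul, h.left]

theorem LData.unop {c : ℕ → Rᵐᵒᵖ} {p : ℕ → Rᵐᵒᵖ⟦X⟧} (h : LData c p) :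
    PData (fun i => MulOpposite.unop (c i)) (fun i => unopPS (p i)) := by
  refine ⟨⟨fun i => ?_, fun i j hij => ?_⟩, fun i => ?_, fun i => ?_⟩
  · rw [← unop_mul, h.orth.1]
  · rw [← unop_mul, h.orth.2 _ _ hij.symm, unop_zero]
  · rw [const_unopPS, h.const]
  · have : C (MulOpposite.unop (c i)) = unopPS (C (c i)) := by
      rw [← unopPS_opPS (C (MulOpposite.unop (c i))), opPS_C, op_unop]
    rw [this, ← unopPS_mul, h.left]

/-- the dual of `exact_lift` -/
theorem exact_lift_op (hR : Regular R) (hS : Separated (Matrix (Fin 3) (Fin 3) R)) {c d : ℕ → R}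
    {D p : ℕ → R⟦X⟧} (hD : LData d D) (hp : PData c p) (hDp : ∀ i j, D j * p i = 0) :
    ∃ (z : R) (ψ : R⟦X⟧), z * z = z ∧ (∀ j, d j * z = d j) ∧ constantCoeff ψ = z ∧
      ∀ i, ψ * p i = 0 := by
  obtain ⟨z, θ, h1, h2, h3, h4⟩ := exact_lift hR.op hS.matrix_op hp.op hD.op (fun i j => by
    rw [← opPS_mul, hDp, opPS_zero])
  refine ⟨MulOpposite.unop z, unopPS θ, ?_, ?_, ?_, ?_⟩
  · rw [← unop_mul, h1]
  · intro j
    have := congrArg MulOpposite.unop (h2 j)
    simpa using this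
  · rw [const_unopPS, h3]
  · intro i
    have := congrArg unopPS (h4 i)
    rwa [unopPS_mul, unopPS_opPS, unopPS_zero] at this

end op

variable {R : Type u} [Ring R]

/-- **The main lemma.** -/
theorem both_lift (hR : Regular R) (hS : Separated (Matrix (Fin 3) (Fin 3) R)) {c d : ℕ → R}
    {D p : ℕ → R⟦X⟧} (hD : LData d D) (hp : PData c p) (hDp : ∀ i j, D j * p i = 0) :
    ∃ (z : R) (θ ψ : R⟦X⟧), constantCoeff θ = z ∧ (∀ j, D j * θ = 0) ∧
      constantCoeff ψ = 1 - z ∧ ∀ i, ψ * p i = 0 := by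
  have hc := hp.orth
  have fixc : ∀ {y : R} {ψ : R⟦X⟧}, constantCoeff ψ = 1 - y → (∀ i, ψ * p i = 0) →
      ∀ i, y * c i = c i := by
    intro y ψ h1 h2 i
    have := congrArg constantCoeff (h2 i)
    rw [map_mul, h1, hp.const, map_zero, sub_mul, one_mul] at this
    exact (sub_eq_zero.1 this).symm
  obtain ⟨w0, ψ0, hw0, hdw0, hψ0, hψp0⟩ := exact_lift_op hR hS hD hp hDp
  have hi0 : (1 - w0) * (1 - w0) = 1 - w0 := by
    rw [mul_sub, mul_one, sub_mul, one_mul, hw0, sub_self, sub_zero]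
  have hψ0' : constantCoeff ψ0 = 1 - (1 - w0) := by rw [hψ0]; abel
  obtain ⟨st, h0, hP, hQ⟩ := dep_seq (α := R⟦X⟧ × R × (ℕ → R⟦X⟧) × R⟦X⟧)
    (fun k t => Stage c D k t.1 t.2.1 t.2.2.1 ∧ constantCoeff t.2.2.2 = 1 - t.2.1 ∧
      ∀ i, t.2.2.2 * p i = 0)
    (fun k t t' => (∀ m ≤ k, coeff m t'.1 = coeff m t.1) ∧ t.2.1 * t'.2.1 = t'.2.1)
    (1, 1 - w0, p, ψ0)
    (by
      refine ⟨⟨hi0, fixc hψ0' hψp0, by simp, ?_, hp.right, hDp, ?_⟩, hψ0', hψp0⟩
      · intro j m hm
        obtain rfl : m = 0 := by omega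
        simp [hD.const, mul_sub, hdw0]
      · intro i m hm
        obtain rfl : m = 0 := by omega
        simp [hp.const])
    (by
      rintro k ⟨T, z, q, ψ⟩ ⟨h, hψ, hψp⟩
      dsimp only at h hψ hψp
      obtain ⟨y', l, ψ', hyy, hy, hl, hψ', hψp'⟩ := claimB hR hS hD.orth hp h.idem hψ hψp
        (r := fun j => - coeff (k + 1) (D j * T))
        (v := fun i => coeff (k + 1) (q i) - coeff (k + 1) T * c i)
        (fun j => by rw [mul_neg, hD.coeff]) (fun i j => h.next_eq hD i j)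
      obtain ⟨T', q', hst, hlow⟩ := h.advance hR hS hc hD hyy hy (fixc hψ' hψp') hl
      exact ⟨(T', y', q', ψ'), ⟨hst, hψ', hψp'⟩, hlow, hy⟩)
  obtain ⟨T, hT⟩ := stable_limit (T := fun k => (st k).1) (fun k => (hQ k).1)
  obtain ⟨d', D', hD', hk1, hk2⟩ := orthogonalize hR (fun k => (st k).2.2.2)
  obtain ⟨w, ψ, hw, hdw, hψ, hψp⟩ := exact_lift_op hR hS hD' hp
    (fun i j => hk1 _ (fun k => (hP k).2.2 i) j)
  have hz : ∀ k, (st k).2.1 * (1 - w) = 1 - w := by
    intro k
    have := hk2 (1 - w) (fun j => by rw [mul_sub, mul_one, hdw, sub_self]) k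
    rw [(hP k).2.1, sub_mul, one_mul] at this
    exact (sub_eq_zero.1 this).symm
  refine ⟨1 - w, T * C (1 - w), ψ, ?_, ?_, ?_, hψp⟩
  · rw [map_mul, constantCoeff_C]
    have : constantCoeff T = 1 := by
      rw [← coeff_zero_eq_constantCoeff_apply, hT 0 0 le_rfl, coeff_zero_eq_constantCoeff_apply]
      exact (hP 0).1.const
    rw [this, one_mul]
  · intro j
    ext m
    rw [← mul_assoc, coeff_mul_C, coeff_mul_congr_right (D j) (hT m) m le_rfl, ← hz m,
      ← mul_assoc, (hP m).1.low j m le_rfl, zero_mul, map_zero]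
  · rw [hψ]; abel

/-- the first order statement -/
theorem first_order (hR : Regular R) (hS : Separated (Matrix (Fin 3) (Fin 3) R)) {f g : R⟦X⟧}
    (hfg : f * g = 0) : ∃ θ ψ : R⟦X⟧, f * θ = 0 ∧ ψ * g = 0 ∧
      constantCoeff θ + constantCoeff ψ = 1 := by
  obtain ⟨d, D, hD, hD1, hD2⟩ := reduction hR f
  obtain ⟨c, p, hp, hp1, hp2⟩ := reduction hR.op (opPS g)
  have hDg : ∀ j, D j * g = 0 := hD1 g hfg
  have hDp : ∀ i j, D j * unopPS (p i) = 0 := by
    intro i j
    have := hp1 (opPS (D j)) (by rw [← opPS_mul, hDg, opPS_zero]) i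
    have h2 := congrArg unopPS this
    rwa [unopPS_mul, unopPS_opPS, unopPS_zero] at h2
  obtain ⟨z, θ, ψ, h1, h2, h3, h4⟩ := both_lift hR hS hD hp.unop hDp
  refine ⟨θ, ψ, hD2 θ h2, ?_, by rw [h1, h3]; abel⟩
  have := hp2 (opPS ψ) (fun i => by
    rw [← opPS_unopPS (p i), ← opPS_mul, h4, opPS_zero])
  have h5 := congrArg unopPS this
  rwa [unopPS_mul, unopPS_opPS, unopPS_opPS, unopPS_zero] at h5

/-- **Principal right ideals of `R[[x]]` are flat.** -/
theorem pf (hR : Regular R) (hS : Separated (Matrix (Fin 3) (Fin 3) R)) {f g : R⟦X⟧}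
    (hfg : f * g = 0) : ∃ h : R⟦X⟧, f * h = 0 ∧ h * g = g := by
  obtain ⟨φ, h0, hP, hQ⟩ := dep_seq (α := R⟦X⟧) (fun _ φ => f * φ * g = 0)
    (fun _ φ φ' => ∃ a b : R⟦X⟧, f * a = 0 ∧ b * g = 0 ∧ φ = a + b + X * φ') 1
    (by rw [mul_one, hfg])
    (by
      intro _ φ hφ
      obtain ⟨θ, ψ, h1, h2, h3⟩ := first_order hR hS hφ
      obtain ⟨φ', hφ'⟩ := exists_X_mul (A := φ - φ * θ - φ * ψ) (by
        rw [map_sub, map_sub, map_mul, map_mul, sub_sub, ← mul_add, h3, mul_one, sub_self])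
      refine ⟨φ', ?_, φ * θ, φ * ψ, ?_, ?_, ?_⟩
      · apply X_mul_cancel
        have : X * (f * φ' * g) = f * (X * φ') * g := by
          rw [← mul_assoc, ← mul_assoc, X_mul (φ := f), mul_assoc f X]
        rw [this, ← hφ', mul_sub, mul_sub, sub_mul, sub_mul, hφ, ← mul_assoc f φ θ, h1,
          mul_assoc f (φ * ψ), mul_assoc φ, h2]
        simp
      · rw [← mul_assoc, h1]
      · rw [mul_assoc, h2, mul_zero]
      · rw [← hφ']; abel)
  choose a b ha hb hab using hQ
  -- partial sums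
  let H : ℕ → R⟦X⟧ := fun n => ∑ k ∈ Finset.range n, X ^ k * a k
  let B : ℕ → R⟦X⟧ := fun n => ∑ k ∈ Finset.range n, X ^ k * b k
  have hHB : ∀ n, 1 = H n + B n + X ^ n * φ n := by
    intro n
    induction n with
    | zero => simp [H, B, h0]
    | succ n ih =>
      rw [ih, hab n]
      simp only [H, B, Finset.sum_range_succ, pow_succ]
      rw [mul_add, mul_add, mul_assoc (X ^ n) X]
      abel
  have hfH : ∀ n, f * H n = 0 := by
    intro n
    simp only [H]
    rw [Finset.mul_sum]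
    refine Finset.sum_eq_zero fun k _ => ?_
    rw [← mul_assoc, ← X_pow_mul, mul_assoc, ha, mul_zero]
  have hBg : ∀ n, B n * g = 0 := by
    intro n
    simp only [B]
    rw [Finset.sum_mul]
    refine Finset.sum_eq_zero fun k _ => ?_
    rw [mul_assoc, hb, mul_zero]
  obtain ⟨h, hh⟩ := stable_limit (T := fun k => H (k + 1)) (by
    intro k m hm
    simp only [H]
    rw [Finset.sum_range_succ _ (k + 1), map_add, coeff_X_pow_mul', if_neg (by omega), add_zero])
  refine ⟨h, ?_, ?_⟩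
  · ext m
    rw [coeff_mul_congr_right f (hh m) m le_rfl, hfH, map_zero]
  · have : (1 - h) * g = 0 := by
      ext m
      have e1 : ∀ l ≤ m, coeff l (1 - h) = coeff l (1 - H (m + 1)) := by
        intro l hl
        rw [map_sub, map_sub, hh m l hl]
      rw [coeff_mul_congr_left g e1 m le_rfl]
      have e2 : 1 - H (m + 1) = B (m + 1) + X ^ (m + 1) * φ (m + 1) := by
        conv_lhs => rw [hHB (m + 1)]
        abel
      rw [e2, add_mul, hBg, zero_add, mul_assoc, coeff_X_pow_mul', if_neg (by omega), map_zero]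
    rw [sub_mul, one_mul] at this
    exact (sub_eq_zero.1 this).symm

end Pool.Agent.D0H74.WG
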