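import Pool.Agent.D0H74.WG.Basic

/-!
# One-step lemmas
-/

set_option autoImplicit false

namespace Pool.Agent.D0H74.WG

universe u

variable {R : Type u} [Ring R]

/-- orthogonal idempotents -/
def Orth (c : ℕ → R) : Prop := (∀ i, c i * c i = c i) ∧ ∀ i j, i ≠ j → c i * c j = 0

theorem Orth.mul {c : ℕ → R} (hc : Orth c) (i j : ℕ) : c i * c j = if i = j then c i else 0 := by
  by_cases h : i = j
  · subst h; simp [hc.1 i]
  · simp [h, hc.2 i j h]

theorem Orth.sum_mul {c : ℕ → R} (hc : Orth c) {s : ℕ → R} (hs : ∀ i, s i * c i = s i)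
    (j i : ℕ) : (∑ l ∈ Finset.range j, s l) * c i = if i < j then s i else 0 := by
  rw [Finset.sum_mul]
  have : ∀ l ∈ Finset.range j, s l * c i = if l = i then s i else 0 := by
    intro l _
    rw [← hs l, mul_assoc, hc.mul]
    split_ifs with h
    · subst h; exact hs l
    · simp
  rw [Finset.sum_congr rfl this, Finset.sum_ite_eq' (Finset.range j) i]
  simp

theorem Orth.mul_sum {d : ℕ → R} (hd : Orth d) {r : ℕ → R} (hr : ∀ j, d j * r j = r j)
    (j m : ℕ) : d j * (∑ l ∈ Finset.range m, r l) = if j < m then r j else 0 := by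
  rw [Finset.mul_sum]
  have : ∀ l ∈ Finset.range m, d j * r l = if j = l then r j else 0 := by
    intro l _
    rw [← hr l, ← mul_assoc, hd.mul]
    split_ifs with h
    · subst h; exact hr j
    · simp
  rw [Finset.sum_congr rfl this, Finset.sum_ite_eq (Finset.range m) j]
  simp

/-- **The exchange lemma.**  An extension problem `s` (into the range of `y`) and a lifting problem
`r` (from the range of `y`): the range of `y` contains the range of an idempotent `e` such that the
lifting problem is solved on the range of `e` and the extension problem is solved modulo `e`. -/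
theorem exchange (hR : Regular R) (hS : Separated (Matrix (Fin 3) (Fin 3) R)) {c d : ℕ → R}
    (hc : Orth c) (hd : Orth d) {s r : ℕ → R} (hs : ∀ i, s i * c i = s i)
    (hr : ∀ j, d j * r j = r j) {y : R} (hy : y * y = y) (hys : ∀ i, y * s i = s i) :
    ∃ e μ l : R, e * e = e ∧ y * e = e ∧ y * μ = μ ∧ l * e = l ∧ (∀ j, d j * l = r j * e) ∧
      ∀ i, (1 - e) * (s i - μ * c i) = 0 := by
  obtain ⟨z, μ, ν, e, l, hzz, hzu, hz, hee, hle, hbe, hext⟩ := tool hR hS (ι := ℕ) (κ := Option ℕ)
    (fun i => c i) (fun i => s i) (fun i => (∑ k ∈ Finset.range (i + 1), r k) * s i)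
    (fun o => o.elim 0 fun j => r j * ∑ k ∈ Finset.range j, s k)
    (fun o => o.elim (1 - y) fun j => - r j)
    (fun o => o.elim 0 fun j => d j) (by
      intro i o
      cases o with
      | none => simp [sub_mul, hys i]
      | some j =>
        simp only [Option.elim]
        rw [mul_assoc, hc.sum_mul hs, ← mul_assoc (d j), hd.mul_sum hr]
        by_cases h : i < j
        · have h2 : ¬ j < i + 1 := by omega
          simp [h, h2]
        · have h2 : j < i + 1 := by omega
          simp [h, h2])
  refine ⟨e, y * μ, l, hee, ?_, ?_, hle, ?_, ?_⟩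
  · have := hbe none
    simp only [Option.elim, zero_mul, add_zero, sub_mul, one_mul] at this
    exact (sub_eq_zero.1 this).symm
  · rw [← mul_assoc, hy]
  · intro j
    have := hbe (some j)
    simp only [Option.elim, neg_mul] at this
    rw [neg_add_eq_zero] at this
    exact this.symm
  · intro i
    have h1 : y * e = e := by
      have := hbe none
      simp only [Option.elim, zero_mul, add_zero, sub_mul, one_mul] at this
      exact (sub_eq_zero.1 this).symm
    -- `(1 - e) (s - y μ c) = y (1 - e) ... `
    have h2 := hext i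
    have h3 : s i - μ * c i = e * (s i - μ * c i) := by
      rw [sub_mul, one_mul] at h2
      exact sub_eq_zero.1 h2
    have h4 : s i - y * μ * c i = e * (s i - μ * c i) := by
      calc s i - y * μ * c i = y * (s i - μ * c i) := by rw [mul_sub, hys, mul_assoc]
        _ = y * (e * (s i - μ * c i)) := by rw [← h3]
        _ = _ := by rw [← mul_assoc, h1]
    rw [h4, ← mul_assoc, sub_mul, one_mul, hee, sub_self, zero_mul]

/-- the extension problem `s` into `y` has a common solution below a decreasing sequence -/
theorem extension_limit (hR : Regular R) (hS : Separated (Matrix (Fin 3) (Fin 3) R)) {c : ℕ → R}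
    {s : ℕ → R} {y : R} (hy : y * y = y) (hys : ∀ i, y * s i = s i) {Y M : ℕ → R}
    (hY : ∀ k, y * Y k = Y k)
    (hYM : ∀ k i, (1 - Y k) * (s i - M k * c i) = 0) :
    ∃ e μ : R, e * e = e ∧ y * e = e ∧ y * μ = μ ∧ (∀ k, Y k * e = e) ∧
      ∀ i, (1 - e) * (s i - μ * c i) = 0 := by
  obtain ⟨z, μ, ν, e, l, hzz, hzu, hz, hee, hle, hbe, hext⟩ := tool hR hS (ι := ℕ) (κ := ℕ)
    (fun i => c i) (fun i => s i) (fun i => 0)
    (fun k => - ((1 - Y k) * M k)) (fun k => 1 - Y k) (fun k => 0) (by
      intro i k
      have := hYM k i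
      rw [mul_sub] at this
      simp only [mul_zero, add_zero, neg_mul]
      rw [neg_add_eq_sub, mul_assoc]
      exact this)
  have hYe : ∀ k, Y k * e = e := by
    intro k
    have := hbe k
    simp only [zero_mul, add_zero, sub_mul, one_mul] at this
    exact (sub_eq_zero.1 this).symm
  have h1 : y * e = e := by
    rw [← hYe 0, ← mul_assoc, hY 0]
  refine ⟨e, y * μ, hee, h1, by rw [← mul_assoc, hy], hYe, ?_⟩
  intro i
  have h2 := hext i
  have h3 : s i - μ * c i = e * (s i - μ * c i) := by
    rw [sub_mul, one_mul] at h2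
    exact sub_eq_zero.1 h2
  have h4 : s i - y * μ * c i = e * (s i - μ * c i) := by
    calc s i - y * μ * c i = y * (s i - μ * c i) := by rw [mul_sub, hys, mul_assoc]
      _ = y * (e * (s i - μ * c i)) := by rw [← h3]
      _ = _ := by rw [← mul_assoc, h1]
  rw [h4, ← mul_assoc, sub_mul, one_mul, hee, sub_self, zero_mul]

/-- dependent choice -/
theorem dep_seq {α : Type*} (P : ℕ → α → Prop) (Q : ℕ → α → α → Prop) (a : α) (ha : P 0 a)
    (h : ∀ k a, P k a → ∃ b, P (k + 1) b ∧ Q k a b) :
    ∃ s : ℕ → α, s 0 = a ∧ (∀ k, P k (s k)) ∧ ∀ k, Q k (s k) (s (k + 1)) := by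
  classical
  choose! f hf using h
  let s : ℕ → α := fun k => Nat.rec a (fun n x => f n x) k
  have hs : ∀ k, P k (s k) := by
    intro k
    induction k with
    | zero => exact ha
    | succ k ih => exact (hf k _ ih).1
  exact ⟨s, rfl, hs, fun k => (hf k _ (hs k)).2⟩

end Pool.Agent.D0H74.WG
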