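import Pool.Agent.D0H74.WG.Steps

/-!
# Towers of lifting problems
-/

set_option autoImplicit false

namespace Pool.Agent.D0H74.WG

open PowerSeries

universe u

variable {R : Type u} [Ring R]

theorem coeff_mul_congr_right {k : ℕ} {A B : R⟦X⟧} (D : R⟦X⟧)
    (h : ∀ m ≤ k, coeff m A = coeff m B) : ∀ m ≤ k, coeff m (D * A) = coeff m (D * B) := by
  intro m hm
  rw [coeff_mul, coeff_mul]
  refine Finset.sum_congr rfl fun x hx => ?_
  rw [Finset.HasAntidiagonal.mem_antidiagonal] at hx
  rw [h x.2 (by omega)]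

theorem coeff_mul_congr_left {k : ℕ} {A B : R⟦X⟧} (D : R⟦X⟧)
    (h : ∀ m ≤ k, coeff m A = coeff m B) : ∀ m ≤ k, coeff m (A * D) = coeff m (B * D) := by
  intro m hm
  rw [coeff_mul, coeff_mul]
  refine Finset.sum_congr rfl fun x hx => ?_
  rw [Finset.HasAntidiagonal.mem_antidiagonal] at hx
  rw [h x.1 (by omega)]

theorem coeff_succ_mul_of_low {k : ℕ} {A : R⟦X⟧} (D : R⟦X⟧) (h : ∀ m ≤ k, coeff m A = 0) :
    coeff (k + 1) (D * A) = constantCoeff D * coeff (k + 1) A := by
  rw [coeff_mul, Finset.sum_eq_single (0, k + 1)]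
  · simp
  · intro x hx hne
    rw [Finset.HasAntidiagonal.mem_antidiagonal] at hx
    rw [h x.2, mul_zero]
    by_contra hcon
    apply hne
    ext <;> simp <;> omega
  · intro h
    exact absurd (Finset.HasAntidiagonal.mem_antidiagonal.2 (by simp)) h

theorem coeff_succ_mul_of_low' {k : ℕ} {A : R⟦X⟧} (D : R⟦X⟧) (h : ∀ m ≤ k, coeff m A = 0) :
    coeff (k + 1) (A * D) = coeff (k + 1) A * constantCoeff D := by
  rw [coeff_mul, Finset.sum_eq_single (k + 1, 0)]
  · simp
  · intro x hx hne
    rw [Finset.HasAntidiagonal.mem_antidiagonal] at hx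
    rw [h x.1, zero_mul]
    by_contra hcon
    apply hne
    ext <;> simp <;> omega
  · intro h
    exact absurd (Finset.HasAntidiagonal.mem_antidiagonal.2 (by simp)) h

theorem coeff_monomial_low {k m : ℕ} (h : m ≤ k) (a : R) :
    coeff m (monomial (k + 1) a : R⟦X⟧) = 0 := by
  rw [coeff_monomial, if_neg (by omega)]

theorem coeff_mul_monomial_low {k m : ℕ} (D : R⟦X⟧) (a : R) (h : m ≤ k) :
    coeff m (D * monomial (k + 1) a) = 0 := by
  rw [coeff_mul_congr_right (A := monomial (k + 1) a) (B := 0) D (fun m hm => by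
    rw [coeff_monomial_low hm a, map_zero]) m h]
  simp

theorem coeff_monomial_mul_low {k m : ℕ} (D : R⟦X⟧) (a : R) (h : m ≤ k) :
    coeff m (monomial (k + 1) a * D) = 0 := by
  rw [coeff_mul_congr_left (A := monomial (k + 1) a) (B := 0) D (fun m hm => by
    rw [coeff_monomial_low hm a, map_zero]) m h]
  simp

theorem coeff_mul_monomial_succ {k : ℕ} (D : R⟦X⟧) (a : R) :
    coeff (k + 1) (D * monomial (k + 1) a) = constantCoeff D * a := by
  rw [coeff_succ_mul_of_low D (A := monomial (k + 1) a) (fun m hm => coeff_monomial_low hm a),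
    coeff_monomial, if_pos rfl]

theorem coeff_monomial_mul_succ {k : ℕ} (D : R⟦X⟧) (a : R) :
    coeff (k + 1) (monomial (k + 1) a * D) = a * constantCoeff D := by
  rw [coeff_succ_mul_of_low' D (A := monomial (k + 1) a) (fun m hm => coeff_monomial_low hm a),
    coeff_monomial, if_pos rfl]

/-- the lifting data: `D_j = d_j + …` with values in `d_j R` -/
structure LData (d : ℕ → R) (D : ℕ → R⟦X⟧) : Prop where
  orth : Orth d
  const : ∀ j, constantCoeff (D j) = d j
  left : ∀ j, C (d j) * D j = D j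

/-- the extension data: `p_i = c_i + …` with `p_i c_i = p_i` -/
structure PData (c : ℕ → R) (p : ℕ → R⟦X⟧) : Prop where
  orth : Orth c
  const : ∀ i, constantCoeff (p i) = c i
  right : ∀ i, p i * C (c i) = p i

theorem LData.coeff {d : ℕ → R} {D : ℕ → R⟦X⟧} (h : LData d D) (j m : ℕ) (A : R⟦X⟧) :
    d j * coeff m (D j * A) = coeff m (D j * A) := by
  conv_rhs => rw [← h.left j, mul_assoc, coeff_C_mul]

theorem PData.coeff {c : ℕ → R} {p : ℕ → R⟦X⟧} (h : PData c p) (i m : ℕ) (A : R⟦X⟧) :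
    coeff m (A * p i) * c i = coeff m (A * p i) := by
  conv_rhs => rw [← h.right i, ← mul_assoc, coeff_mul_C]

/-- stable limit of a sequence of power series -/
theorem stable_limit {T : ℕ → R⟦X⟧} (hT : ∀ k, ∀ m ≤ k, coeff m (T (k + 1)) = coeff m (T k)) :
    ∃ T' : R⟦X⟧, ∀ k, ∀ m ≤ k, coeff m T' = coeff m (T k) := by
  refine ⟨PowerSeries.mk fun m => coeff m (T m), fun k m hm => ?_⟩
  rw [coeff_mk]
  induction k, hm using Nat.le_induction with
  | base => rfl
  | succ k hk ih => rw [ih, hT k m hk]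

theorem chain_mul {Y : ℕ → R} (h0 : ∀ k, Y k * Y k = Y k) (h : ∀ k, Y k * Y (k + 1) = Y (k + 1))
    {k l : ℕ} (hkl : k ≤ l) : Y k * Y l = Y l := by
  induction l, hkl using Nat.le_induction with
  | base => exact h0 k
  | succ l hl ih => rw [← h l, ← mul_assoc, ih]

/-- **Errors can be lifted exactly.** -/
theorem exact_error (hR : Regular R) (hS : Separated (Matrix (Fin 3) (Fin 3) R)) {c d : ℕ → R}
    {D : ℕ → R⟦X⟧} (hc : Orth c) (hD : LData d D) {s : ℕ → R} (hs : ∀ i, s i * c i = s i)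
    {y : R} (hy : y * y = y) (hys : ∀ i, y * s i = s i) (hdy : ∀ j, d j * y = 0) :
    ∃ (e μ : R) (κ : R⟦X⟧), e * e = e ∧ y * e = e ∧ y * μ = μ ∧
      (∀ i, (1 - e) * (s i - μ * c i) = 0) ∧ constantCoeff κ = e ∧ ∀ j, D j * κ = 0 := by
  obtain ⟨st, h0, hP, hQ⟩ := dep_seq (α := R⟦X⟧ × R × R)
    (fun k t => t.2.1 * t.2.1 = t.2.1 ∧ y * t.2.1 = t.2.1 ∧ y * t.2.2 = t.2.2 ∧
      (∀ i, (1 - t.2.1) * (s i - t.2.2 * c i) = 0) ∧ constantCoeff t.1 = 1 ∧
      ∀ j, ∀ m ≤ k, coeff m (D j * t.1) * t.2.1 = 0)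
    (fun k t t' => (∀ m ≤ k, coeff m t'.1 = coeff m t.1) ∧ t.2.1 * t'.2.1 = t'.2.1)
    (1, y, 0)
    (by
      refine ⟨hy, hy, by simp, fun i => ?_, by simp, ?_⟩
      · simp [sub_mul, hys i]
      · intro j m hm
        obtain rfl : m = 0 := by omega
        simp [hD.const, hdy])
    (by
      rintro k ⟨T, y', μ'⟩ ⟨hyy, hyy', hμ, hext, hT, hlow⟩
      dsimp only at *
      have hs' : ∀ i, (s i - μ' * c i) * c i = s i - μ' * c i := by
        intro i
        rw [sub_mul, hs, mul_assoc, hc.1]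
      have hys' : ∀ i, y' * (s i - μ' * c i) = s i - μ' * c i := by
        intro i
        have := hext i
        rw [sub_mul, one_mul] at this
        exact (sub_eq_zero.1 this).symm
      obtain ⟨e, μ, l, hee, hye, hyμ, hle, hl, hext'⟩ := exchange hR hS hc hD.orth
        (s := fun i => s i - μ' * c i) (r := fun j => - coeff (k + 1) (D j * T)) hs'
        (fun j => by rw [mul_neg, hD.coeff]) hyy hys'
      refine ⟨(T + monomial (k + 1) l, e, μ' + μ), ⟨hee, ?_, ?_, ?_, ?_, ?_⟩, ?_, hye⟩
      · show y * e = e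
        rw [← hye, ← mul_assoc, hyy']
      · show y * (μ' + μ) = μ' + μ
        rw [mul_add, hμ]
        congr 1
        rw [← hyμ, ← mul_assoc, hyy']
      · intro i
        show (1 - e) * (s i - (μ' + μ) * c i) = 0
        have := hext' i
        rw [add_mul, ← sub_sub]
        exact this
      · show constantCoeff (T + monomial (k + 1) l) = 1
        rw [map_add, hT, ← coeff_zero_eq_constantCoeff_apply, coeff_monomial_low (Nat.zero_le k),
          add_zero]
      · intro j m hm
        show coeff m (D j * (T + monomial (k + 1) l)) * e = 0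
        rw [mul_add, map_add]
        rcases Nat.lt_or_ge k m with h | h
        · obtain rfl : m = k + 1 := by omega
          rw [coeff_mul_monomial_succ, hD.const, hl j]
          rw [add_mul, mul_assoc, hee]
          rw [neg_mul, add_neg_cancel]
        · rw [coeff_mul_monomial_low (D j) l h, add_zero]
          rw [← hye, ← mul_assoc, hlow j m h, zero_mul]
      · intro m hm
        show coeff m (T + monomial (k + 1) l) = coeff m T
        rw [map_add, coeff_monomial_low hm l, add_zero])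
  obtain ⟨T, hT⟩ := stable_limit (T := fun k => (st k).1) (fun k => (hQ k).1)
  obtain ⟨e, μ, hee, hye, hyμ, hYe, hext⟩ := extension_limit hR hS (c := c) (s := s) hy hys
    (Y := fun k => (st k).2.1) (M := fun k => (st k).2.2) (fun k => (hP k).2.1)
    (fun k => (hP k).2.2.2.1)
  refine ⟨e, μ, T * C e, hee, hye, hyμ, hext, ?_, ?_⟩
  · rw [map_mul, constantCoeff_C]
    have : constantCoeff T = 1 := by
      rw [← coeff_zero_eq_constantCoeff_apply, hT 0 0 le_rfl, coeff_zero_eq_constantCoeff_apply]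
      exact (hP 0).2.2.2.2.1
    rw [this, one_mul]
  · intro j
    ext m
    rw [← mul_assoc, coeff_mul_C, coeff_mul_congr_right (D j) (hT m) m le_rfl, ← hYe m,
      ← mul_assoc, (hP m).2.2.2.2.2 j m le_rfl, zero_mul, map_zero]

end Pool.Agent.D0H74.WG
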